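import Mathlib

/-! A family of subsets of a finite set which is closed under subsets and contains, for all weights, a
member which carries the proportion `p` of the total weight, supports a probability distribution for
which every element is covered with probability exactly `p`. -/

set_option autoImplicit false

namespace Pool.Agent.Q118.HL

open Finset

variable {V : Type} [Fintype V] [DecidableEq V]

/-- the indicator function of a finite set -/
noncomputable def ind (S : Finset V) : V → ℝ := fun t => if t ∈ S then 1 else 0

theorem dual (P : Finset V → Prop) (hsub : ∀ S S', S' ⊆ S → P S → P S') (p : ℝ) (hp : 0 ≤ p)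
    (hP : ∀ w : V → ℝ, (∀ t, 0 ≤ w t) → ∃ S, P S ∧ p * ∑ t, w t ≤ ∑ t ∈ S, w t) :
    ∃ q : Finset V → ℝ, (∀ S, 0 ≤ q S) ∧ (∀ S, q S ≠ 0 → P S) ∧ ∑ S, q S = 1 ∧
      ∀ t, ∑ S ∈ univ.filter (fun S => t ∈ S), q S = p := by
  classical
  set F : Finset (V → ℝ) := (univ.filter (fun S : Finset V => P S)).image ind with hF
  have hconv : Convex ℝ (convexHull ℝ (F : Set (V → ℝ))) := convex_convexHull ℝ _
  have hclosed : IsClosed (convexHull ℝ (F : Set (V → ℝ))) :=
    (F.finite_toSet.isCompact_convexHull (𝕜 := ℝ)).isClosed
  have hmem : (fun _ : V => p) ∈ convexHull ℝ (F : Set (V → ℝ)) := by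
    by_contra hnot
    obtain ⟨f, u, hfu, hfS⟩ := geometric_hahn_banach_point_closed hconv hclosed hnot
    have hfv : ∀ y : V → ℝ, f y = ∑ t, y t * f (Pi.single t 1) := by
      intro y
      conv_lhs => rw [← Finset.univ_sum_single y]
      rw [map_sum]
      refine sum_congr rfl fun t _ => ?_
      have : (Pi.single t (y t) : V → ℝ) = y t • (Pi.single t 1 : V → ℝ) := by
        rw [← Pi.single_smul, smul_eq_mul, mul_one]
      rw [this, map_smul, smul_eq_mul]
    set w : V → ℝ := fun t => max (-f (Pi.single t 1)) 0 with hw
    obtain ⟨S, hS, hSw⟩ := hP w (fun t => le_max_right _ _)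
    set S' : Finset V := S.filter (fun t => f (Pi.single t 1) < 0) with hS'
    have hPS' : P S' := hsub S S' (filter_subset _ _) hS
    have h1 : u < f (ind S') := by
      apply hfS
      apply subset_convexHull
      rw [hF, Finset.coe_image]
      exact ⟨S', by simp [hPS'], rfl⟩
    have h2 : f (ind S') = - ∑ t ∈ S, w t := by
      rw [hfv, ← sum_neg_distrib]
      have : ∀ t, ind S' t * f (Pi.single t 1) = if t ∈ S then - w t else 0 := by
        intro t
        by_cases ht : t ∈ S
        · by_cases hn : f (Pi.single t 1) < 0
          · have h3 : t ∈ S' := mem_filter.2 ⟨ht, hn⟩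
            simp only [ind, h3, ht, if_true, hw]
            rw [max_eq_left (by linarith)]
            ring
          · have h3 : t ∉ S' := fun h => hn (mem_filter.1 h).2
            simp only [ind, h3, ht, if_true, if_false, hw]
            rw [max_eq_right (by linarith)]
            ring
        · have h3 : t ∉ S' := fun h => ht (mem_filter.1 h).1
          simp only [ind, h3, ht, if_false]
          ring
      rw [sum_congr rfl fun t _ => this t, sum_ite_mem, univ_inter]
    have h3 : f (fun _ : V => p) = p * ∑ t, f (Pi.single t 1) := by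
      rw [hfv, mul_sum]
    have h4 : - ∑ t, f (Pi.single t 1) ≤ ∑ t, w t := by
      rw [← sum_neg_distrib]
      exact sum_le_sum fun t _ => le_max_left _ _
    nlinarith
  rw [Finset.convexHull_eq] at hmem
  obtain ⟨w, hw0, hw1, hw2⟩ := hmem
  have hinj : ∀ S S' : Finset V, ind S = ind S' → S = S' := by
    intro S S' h
    ext t
    have := congrFun h t
    simp only [ind] at this
    by_cases h1 : t ∈ S <;> by_cases h2 : t ∈ S' <;> simp_all
  refine ⟨fun S => if P S then w (ind S) else 0, ?_, ?_, ?_, ?_⟩
  · intro S
    beta_reduce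
    by_cases h : P S
    · rw [if_pos h]
      apply hw0
      rw [hF]
      exact mem_image.2 ⟨S, by simp [h], rfl⟩
    · rw [if_neg h]
  · intro S h
    by_contra hS
    simp only [hS, if_false, ne_eq, not_true_eq_false] at h
  · rw [← sum_filter, ← hw1, hF, sum_image]
    intro S _ S' _ h
    exact hinj _ _ h
  · intro t
    have h1 := congrFun hw2 t
    rw [Finset.centerMass_eq_of_sum_1 _ _ hw1] at h1
    simp only [Finset.sum_apply, Pi.smul_apply, id, smul_eq_mul] at h1
    rw [hF, sum_image (fun S _ S' _ h => hinj _ _ h)] at h1
    rw [← h1, sum_filter, sum_filter]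
    refine sum_congr rfl fun S _ => ?_
    by_cases h : P S <;> by_cases h' : t ∈ S <;> simp [ind, h, h']

end Pool.Agent.Q118.HL
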