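import Mathlib
import Pool.Agent.Q118.HL.Dual

/-! Sidorenko's inequality for boxes, and the proportion of the copies of a pattern which lie in a member of a
family which carries the proportion `p` of every weight. -/

set_option autoImplicit false

namespace Pool.Agent.Q118.HL

open Finset

/-- the entry with the index `i` of the subarray selected by `f` -/
def pt {d r L : ℕ} (f : Fin d → Fin r → Fin L) (i : Fin d → Fin r) : Fin d → Fin L := fun j => f j (i j)

/-- Sidorenko's inequality for the pattern `F`: a set `S` of entries of an array with sides `L` which contains the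
proportion `s` of all entries contains all the entries with indices in `F` of at least the proportion
`s ^ |F|` of the (selections of) subarrays with sides `r`. -/
def Sid {d r : ℕ} (F : Finset (Fin d → Fin r)) : Prop :=
  ∀ L : ℕ, 1 ≤ L → ∀ S : Finset (Fin d → Fin L),
    ((S.card : ℝ) / (L : ℝ) ^ d) ^ F.card * ((L : ℝ) ^ r) ^ d ≤
      (((univ : Finset (Fin d → Fin r → Fin L)).filter (fun f => ∀ i ∈ F, pt f i ∈ S)).card : ℝ)

theorem pow_mean {ι : Type} [Fintype ι] [Nonempty ι] (a : ι → ℝ) (ha : ∀ i, 0 ≤ a i) (r : ℕ) :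
    (Fintype.card ι : ℝ) * ((∑ i, a i) / Fintype.card ι) ^ r ≤ ∑ i, a i ^ r := by
  have hN : (0 : ℝ) < Fintype.card ι := by exact_mod_cast Fintype.card_pos
  cases r with
  | zero => simp
  | succ n =>
    have := pow_sum_div_card_le_sum_pow (s := (univ : Finset ι)) (f := a) (fun i _ => ha i) n
    rw [card_univ] at this
    refine le_trans (le_of_eq ?_) this
    rw [div_pow, pow_succ (Fintype.card ι : ℝ) n]
    field_simp

theorem box_ineq (L r : ℕ) (hL : 1 ≤ L) : ∀ (d : ℕ) (g : (Fin d → Fin L) → ℝ), (∀ ω, 0 ≤ g ω) →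
    ((L : ℝ) ^ r) ^ d * ((∑ ω, g ω) / (L : ℝ) ^ d) ^ (r ^ d) ≤
      ∑ f : Fin d → Fin r → Fin L, ∏ i : Fin d → Fin r, g (pt f i) := by
  intro d
  have hL0 : (0 : ℝ) < L := by exact_mod_cast hL
  have : Nonempty (Fin L) := ⟨⟨0, hL⟩⟩
  induction d with
  | zero =>
    intro g hg
    simp only [pow_zero, one_mul, div_one, pow_one, Fintype.sum_unique, Fintype.prod_unique]
    apply le_of_eq
    congr 1
    exact Subsingleton.elim _ _
  | succ d ih =>
    intro g hg
    -- split off the first coordinate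
    have hsplit : ∑ f : Fin (d + 1) → Fin r → Fin L, ∏ i : Fin (d + 1) → Fin r, g (pt f i) =
        ∑ f : Fin d → Fin r → Fin L, (∑ y : Fin L, ∏ i : Fin d → Fin r, g (Fin.cons y (pt f i))) ^ r := by
      rw [← (Fin.consEquiv (fun _ : Fin (d + 1) => Fin r → Fin L)).sum_comp, Fintype.sum_prod_type_right]
      refine sum_congr rfl fun f _ => ?_
      have h1 : (∑ y : Fin L, ∏ i : Fin d → Fin r, g (Fin.cons y (pt f i))) ^ r =
          ∑ h : Fin r → Fin L, ∏ k : Fin r, ∏ i : Fin d → Fin r, g (Fin.cons (h k) (pt f i)) := by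
        have := Fintype.sum_pow (fun y : Fin L => ∏ i : Fin d → Fin r, g (Fin.cons y (pt f i))) r
        rw [this]
      rw [h1]
      refine sum_congr rfl fun h _ => ?_
      rw [← (Fin.consEquiv (fun _ : Fin (d + 1) => Fin r)).prod_comp, Fintype.prod_prod_type]
      refine prod_congr rfl fun k _ => prod_congr rfl fun i _ => ?_
      congr 1
      ext j
      refine Fin.cases ?_ (fun j => ?_) j
      · simp [pt, Fin.consEquiv]
      · simp [pt, Fin.consEquiv]
    rw [hsplit]
    have hN : (Fintype.card (Fin d → Fin r → Fin L) : ℝ) = ((L : ℝ) ^ r) ^ d := by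
      simp
    set a : (Fin d → Fin r → Fin L) → ℝ := fun f => ∑ y : Fin L, ∏ i : Fin d → Fin r, g (Fin.cons y (pt f i)) with ha
    have ha0 : ∀ f, 0 ≤ a f := fun f => sum_nonneg fun y _ => prod_nonneg fun i _ => hg _
    have h2 := pow_mean a ha0 r
    rw [hN] at h2
    refine le_trans ?_ h2
    -- the sum of the `a f`
    set M : ℝ := (∑ ω, g ω) / (L : ℝ) ^ (d + 1) with hM
    have hM0 : 0 ≤ M := div_nonneg (sum_nonneg fun _ _ => hg _) (by positivity)
    have h3 : ((L : ℝ) ^ r) ^ d * (L * M ^ (r ^ d)) ≤ ∑ f, a f := by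
      rw [ha, sum_comm]
      have h4 : ∀ y : Fin L, ((L : ℝ) ^ r) ^ d * ((∑ ω : Fin d → Fin L, g (Fin.cons y ω)) / (L : ℝ) ^ d) ^ (r ^ d) ≤
          ∑ f : Fin d → Fin r → Fin L, ∏ i : Fin d → Fin r, g (Fin.cons y (pt f i)) :=
        fun y => ih (fun ω => g (Fin.cons y ω)) (fun ω => hg _)
      refine le_trans ?_ (sum_le_sum fun y _ => h4 y)
      rw [← mul_sum]
      apply mul_le_mul_of_nonneg_left _ (by positivity)
      have h5 := pow_mean (fun y : Fin L => (∑ ω : Fin d → Fin L, g (Fin.cons y ω)) / (L : ℝ) ^ d)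
        (fun y => div_nonneg (sum_nonneg fun _ _ => hg _) (by positivity)) (r ^ d)
      rw [Fintype.card_fin] at h5
      refine le_trans (le_of_eq ?_) h5
      congr 2
      rw [hM, ← (Fin.consEquiv (fun _ : Fin (d + 1) => Fin L)).sum_comp, Fintype.sum_prod_type, ← sum_div, div_div,
        pow_succ]
      rfl
    have h6 : L * M ^ (r ^ d) ≤ (∑ f, a f) / ((L : ℝ) ^ r) ^ d := by
      rw [le_div_iff₀ (by positivity)]
      linarith
    calc ((L : ℝ) ^ r) ^ (d + 1) * M ^ (r ^ (d + 1))
        = ((L : ℝ) ^ r) ^ d * (L * M ^ (r ^ d)) ^ r := by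
          rw [mul_pow (L : ℝ), ← pow_mul M, ← pow_succ r d, pow_succ ((L : ℝ) ^ r) d]
          ring
      _ ≤ ((L : ℝ) ^ r) ^ d * ((∑ f, a f) / ((L : ℝ) ^ r) ^ d) ^ r := by
          apply mul_le_mul_of_nonneg_left _ (by positivity)
          exact pow_le_pow_left₀ (by positivity) h6 r

/-- boxes satisfy Sidorenko's inequality -/
theorem sid_univ (d r : ℕ) : Sid (univ : Finset (Fin d → Fin r)) := by
  intro L hL S
  have h := box_ineq L r hL d (ind S) (fun ω => by unfold ind; split_ifs <;> norm_num)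
  have h1 : ∑ ω, ind S ω = S.card := by
    simp [ind]
  have h2 : ∑ f : Fin d → Fin r → Fin L, ∏ i : Fin d → Fin r, ind S (pt f i) =
      (((univ : Finset (Fin d → Fin r → Fin L)).filter (fun f => ∀ i ∈ (univ : Finset (Fin d → Fin r)), pt f i ∈ S)).card : ℝ) := by
    rw [card_filter, Nat.cast_sum]
    refine sum_congr rfl fun f _ => ?_
    by_cases hf : ∀ i ∈ (univ : Finset (Fin d → Fin r)), pt f i ∈ S
    · rw [if_pos hf, Nat.cast_one]
      apply prod_eq_one
      intro i hi
      simp [ind, hf i hi]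
    · rw [if_neg hf, Nat.cast_zero]
      push Not at hf
      obtain ⟨i, hi, hiS⟩ := hf
      exact prod_eq_zero hi (by simp [ind, hiS])
  rw [h1, h2] at h
  refine le_trans (le_of_eq ?_) h
  rw [card_univ]
  simp
  ring

end Pool.Agent.Q118.HL
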