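import Mathlib
import Pool.Agent.Q118.HL.Sid

/-! Proportions of subarrays: averaging. -/

set_option autoImplicit false

namespace Pool.Agent.Q118.HL

open Finset

/-- `P` is closed under subsets and contains, for all weights, a member which carries the proportion `p` -/
def Carries {V : Type} [Fintype V] (p : ℝ) (P : Finset V → Prop) : Prop :=
  (∀ S S', S' ⊆ S → P S → P S') ∧
    ∀ w : V → ℝ, (∀ t, 0 ≤ w t) → ∃ S, P S ∧ p * ∑ t, w t ≤ ∑ t ∈ S, w t

open Classical in
theorem prop1 {d r L : ℕ} (hL : 1 ≤ L) (P : Finset (Fin d → Fin L) → Prop) (p : ℝ) (hp : 0 < p)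
    (hP : Carries p P) (F : Finset (Fin d → Fin r)) (hF : F.Nonempty) (hS : Sid F) :
    p ^ (F.card - 1) * ((L : ℝ) ^ r) ^ d ≤
      (((univ : Finset (Fin d → Fin r → Fin L)).filter (fun f => P (F.image (pt f)))).card : ℝ) := by
  obtain ⟨q, hq0, hqP, hq1, hqt⟩ := dual P hP.1 p hp.le hP.2
  have hL0 : (0 : ℝ) < L := by exact_mod_cast hL
  have hcV : (Fintype.card (Fin d → Fin L) : ℝ) = (L : ℝ) ^ d := by simp
  -- the mean size
  have h1 : ∑ S, q S * ((S.card : ℝ) / (L : ℝ) ^ d) = p := by
    have h2 : ∑ S, q S * (S.card : ℝ) = p * (L : ℝ) ^ d := by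
      have h3 : ∑ t : Fin d → Fin L, ∑ S ∈ univ.filter (fun S : Finset (Fin d → Fin L) => t ∈ S), q S =
          ∑ S, q S * (S.card : ℝ) := by
        simp_rw [sum_filter]
        rw [sum_comm]
        refine sum_congr rfl fun S _ => ?_
        rw [sum_ite_mem, univ_inter, sum_const, nsmul_eq_mul, mul_comm]
      rw [← h3, sum_congr rfl fun t _ => hqt t, sum_const, card_univ, nsmul_eq_mul, hcV, mul_comm]
    simp_rw [← mul_div_assoc]
    rw [← sum_div, h2]
    field_simp
  have h2 : p ^ F.card ≤ ∑ S, q S * ((S.card : ℝ) / (L : ℝ) ^ d) ^ F.card := by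
    have := Real.pow_arith_mean_le_arith_mean_pow univ q (fun S => (S.card : ℝ) / (L : ℝ) ^ d)
      (fun S _ => hq0 S) hq1 (fun S _ => by positivity) F.card
    rwa [h1] at this
  have h3 : p ^ F.card * ((L : ℝ) ^ r) ^ d ≤
      ∑ S, q S * (((univ : Finset (Fin d → Fin r → Fin L)).filter (fun f => ∀ i ∈ F, pt f i ∈ S)).card : ℝ) := by
    refine (mul_le_mul_of_nonneg_right h2 (by positivity)).trans ?_
    rw [sum_mul]
    refine sum_le_sum fun S _ => ?_
    rw [mul_assoc]
    exact mul_le_mul_of_nonneg_left (hS L hL S) (hq0 S)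
  have h4 : ∑ S, q S * (((univ : Finset (Fin d → Fin r → Fin L)).filter (fun f => ∀ i ∈ F, pt f i ∈ S)).card : ℝ) =
      ∑ f : Fin d → Fin r → Fin L, ∑ S ∈ univ.filter (fun S : Finset (Fin d → Fin L) => ∀ i ∈ F, pt f i ∈ S), q S := by
    simp_rw [sum_filter]
    rw [sum_comm]
    refine sum_congr rfl fun S _ => ?_
    rw [card_filter, Nat.cast_sum, mul_sum]
    refine sum_congr rfl fun f _ => ?_
    split_ifs <;> simp
  obtain ⟨i₀, hi₀⟩ := hF
  have h5 : ∀ f : Fin d → Fin r → Fin L,
      ∑ S ∈ univ.filter (fun S : Finset (Fin d → Fin L) => ∀ i ∈ F, pt f i ∈ S), q S ≤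
        if P (F.image (pt f)) then p else 0 := by
    intro f
    by_cases hf : P (F.image (pt f))
    · rw [if_pos hf, ← hqt (pt f i₀)]
      apply sum_le_sum_of_subset_of_nonneg
      · intro S hSm
        rw [mem_filter] at hSm ⊢
        exact ⟨hSm.1, hSm.2 i₀ hi₀⟩
      · intro S _ _
        exact hq0 S
    · rw [if_neg hf]
      apply le_of_eq
      apply sum_eq_zero
      intro S hSm
      by_contra hne
      apply hf
      refine hP.1 S _ ?_ (hqP S hne)
      intro ω hω
      obtain ⟨i, hi, rfl⟩ := mem_image.1 hω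
      exact (mem_filter.1 hSm).2 i hi
  have h6 : p ^ F.card * ((L : ℝ) ^ r) ^ d ≤
      p * (((univ : Finset (Fin d → Fin r → Fin L)).filter (fun f => P (F.image (pt f)))).card : ℝ) := by
    refine h3.trans (h4.le.trans ((sum_le_sum fun f _ => h5 f).trans (le_of_eq ?_)))
    rw [← sum_filter, sum_const, nsmul_eq_mul, mul_comm]
  have h7 : p ^ F.card = p * p ^ (F.card - 1) := by
    rw [← pow_succ', Nat.sub_add_cancel (card_pos.2 ⟨i₀, hi₀⟩)]
  rw [h7, mul_assoc] at h6
  exact le_of_mul_le_mul_left h6 hp

open Classical in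
/-- few selections are not injective -/
theorem noninj (d r L : ℕ) :
    ((univ : Finset (Fin d → Fin r → Fin L)).filter (fun f => ¬ ∀ j, Function.Injective (f j))).card * L ≤
      d * (r * r) * (L ^ r) ^ d := by
  set B : Fin d × Fin r × Fin r → Finset (Fin d → Fin r → Fin L) := fun x =>
    univ.filter (fun f => x.2.1 ≠ x.2.2 ∧ f x.1 x.2.1 = f x.1 x.2.2) with hB
  have h1 : (univ : Finset (Fin d → Fin r → Fin L)).filter (fun f => ¬ ∀ j, Function.Injective (f j)) ⊆
      univ.biUnion B := by
    intro f hf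
    have h2 := (mem_filter.1 hf).2
    push Not at h2
    obtain ⟨j, hj⟩ := h2
    rw [Function.not_injective_iff] at hj
    obtain ⟨a, b, hab, hne⟩ := hj
    exact mem_biUnion.2 ⟨(j, a, b), mem_univ _, mem_filter.2 ⟨mem_univ _, hne, hab⟩⟩
  have h2 : ∀ x, (B x).card * L ≤ (L ^ r) ^ d := by
    rintro ⟨j, a, b⟩
    by_cases hab : a = b
    · have : B (j, a, b) = ∅ := by
        rw [hB]
        apply filter_eq_empty_iff.2
        intro f _ h
        exact h.1 hab
      rw [this, card_empty, zero_mul]
      exact Nat.zero_le _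
    · have h3 : (B (j, a, b) ×ˢ (univ : Finset (Fin L))).card ≤ (univ : Finset (Fin d → Fin r → Fin L)).card := by
        apply card_le_card_of_injOn (fun y => Function.update y.1 j (Function.update (y.1 j) a y.2))
          (fun _ _ => mem_coe.2 (mem_univ _))
        rintro ⟨f, y⟩ hf ⟨g, z⟩ hg h
        have hf1 := (mem_filter.1 (mem_product.1 (mem_coe.1 hf)).1).2
        have hg1 := (mem_filter.1 (mem_product.1 (mem_coe.1 hg)).1).2
        simp only at h hf1 hg1
        have e1 : ∀ j' i', (j', i') ≠ (j, a) → f j' i' = g j' i' := by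
          intro j' i' hne
          have := congrFun (congrFun h j') i'
          by_cases hj : j' = j
          · subst hj
            have hi : i' ≠ a := fun hi => hne (by rw [hi])
            simpa [Function.update_of_ne hi] using this
          · simpa [Function.update_of_ne hj] using this
        have e2 : y = z := by
          have := congrFun (congrFun h j) a
          simpa using this
        have e3 : f j a = g j a := by
          rw [hf1.2, hg1.2]
          apply e1
          intro hc
          apply hab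
          exact (Prod.mk.inj hc).2.symm
        refine Prod.ext ?_ e2
        funext j' i'
        by_cases hc : (j', i') = (j, a)
        · obtain ⟨rfl, rfl⟩ := Prod.mk.inj hc
          exact e3
        · exact e1 j' i' hc
      rw [card_product, card_univ, card_univ] at h3
      simpa using h3
  calc _ ≤ (univ.biUnion B).card * L := Nat.mul_le_mul_right _ (card_le_card h1)
    _ ≤ (∑ x, (B x).card) * L := Nat.mul_le_mul_right _ card_biUnion_le
    _ = ∑ x, (B x).card * L := by rw [sum_mul]
    _ ≤ ∑ _x : Fin d × Fin r × Fin r, (L ^ r) ^ d := sum_le_sum fun x _ => h2 x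
    _ = d * (r * r) * (L ^ r) ^ d := by simp

open Classical in
/-- pulling back along an injective selection -/
theorem pull {d r L K : ℕ} (hK : 1 ≤ K) (f : Fin d → Fin r → Fin L) (hf : ∀ j, Function.Injective (f j))
    (Q : (Fin d → Fin r → Fin K) → Prop) :
    ((univ : Finset (Fin d → Fin L → Fin K)).filter (fun φ => Q (fun j i => φ j (f j i)))).card * (K ^ r) ^ d =
      ((univ : Finset (Fin d → Fin r → Fin K)).filter Q).card * (K ^ L) ^ d := by
  have : NeZero K := ⟨by omega⟩
  let e : (Fin d → Fin L → Fin K) →+ (Fin d → Fin r → Fin K) :=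
    { toFun := fun φ j i => φ j (f j i)
      map_zero' := rfl
      map_add' := fun _ _ => rfl }
  have hsurj : Function.Surjective e := by
    intro g
    refine ⟨fun j => Function.extend (f j) (g j) 0, ?_⟩
    funext j i
    show Function.extend (f j) (g j) 0 (f j i) = g j i
    exact (hf j).extend_apply _ _ _
  have hfib : ∀ g, ((univ : Finset (Fin d → Fin L → Fin K)).filter (fun φ => e φ = g)).card =
      ((univ : Finset (Fin d → Fin L → Fin K)).filter (fun φ => e φ = 0)).card := by
    intro g
    exact AddMonoidHom.card_fiber_eq_of_mem_range e (hsurj g) (hsurj 0)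
  set c := ((univ : Finset (Fin d → Fin L → Fin K)).filter (fun φ => e φ = 0)).card with hc
  have h1 : (K ^ L) ^ d = (K ^ r) ^ d * c := by
    have h2 : (univ : Finset (Fin d → Fin L → Fin K)).card =
        ∑ g : Fin d → Fin r → Fin K, ((univ : Finset (Fin d → Fin L → Fin K)).filter (fun φ => e φ = g)).card :=
      card_eq_sum_card_fiberwise (fun φ _ => mem_coe.2 (mem_univ _))
    rw [sum_congr rfl fun g _ => hfib g, sum_const, card_univ, card_univ] at h2
    simpa using h2
  have h2 : ((univ : Finset (Fin d → Fin L → Fin K)).filter (fun φ => Q (fun j i => φ j (f j i)))).card =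
      ((univ : Finset (Fin d → Fin r → Fin K)).filter Q).card * c := by
    have h3 : ((univ : Finset (Fin d → Fin L → Fin K)).filter (fun φ => Q (fun j i => φ j (f j i)))).card =
        ∑ g ∈ (univ : Finset (Fin d → Fin r → Fin K)).filter Q,
          (((univ : Finset (Fin d → Fin L → Fin K)).filter (fun φ => Q (fun j i => φ j (f j i)))).filter
            (fun φ => e φ = g)).card :=
      card_eq_sum_card_fiberwise (fun φ hφ => mem_coe.2 (mem_filter.2 ⟨mem_univ _, (mem_filter.1 (mem_coe.1 hφ)).2⟩))
    rw [h3, card_eq_sum_ones, sum_mul]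
    refine sum_congr rfl fun g hg => ?_
    rw [one_mul, ← hfib g, filter_filter]
    congr 1
    ext φ
    simp only [mem_filter, mem_univ, true_and]
    constructor
    · rintro ⟨_, h⟩
      exact h
    · intro h
      refine ⟨?_, h⟩
      have h4 := (mem_filter.1 hg).2
      rw [← h] at h4
      exact h4
  rw [h2, h1]
  ring

open Classical in
theorem prop2 {d r L K : ℕ} (hL : 1 ≤ L) (hK : 1 ≤ K) (p : ℝ) (hp : 0 < p) (F : Finset (Fin d → Fin r))
    (hF : F.Nonempty) (hS : Sid F) (Good : (Fin d → Fin r → Fin K) → Prop)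
    (hG : ∀ φ : Fin d → Fin L → Fin K, ∃ P : Finset (Fin d → Fin L) → Prop, Carries p P ∧
      ∀ f : Fin d → Fin r → Fin L, (∀ j, Function.Injective (f j)) → P (F.image (pt f)) →
        Good (fun j i => φ j (f j i))) :
    (p ^ (F.card - 1) - (d * (r * r) : ℝ) / L) * ((K : ℝ) ^ r) ^ d ≤
      (((univ : Finset (Fin d → Fin r → Fin K)).filter Good).card : ℝ) := by
  have hL0 : (0 : ℝ) < L := by exact_mod_cast hL
  have hK0 : (0 : ℝ) < K := by exact_mod_cast hK
  have h1 : ∀ φ : Fin d → Fin L → Fin K, (p ^ (F.card - 1) - (d * (r * r) : ℝ) / L) * ((L : ℝ) ^ r) ^ d ≤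
      (((univ : Finset (Fin d → Fin r → Fin L)).filter (fun f => (∀ j, Function.Injective (f j)) ∧
        Good (fun j i => φ j (f j i)))).card : ℝ) := by
    intro φ
    obtain ⟨P, hP, hPG⟩ := hG φ
    have e1 := prop1 hL P p hp hP F hF hS
    have e2 := noninj d r L
    have e3 : ((univ : Finset (Fin d → Fin r → Fin L)).filter (fun f => P (F.image (pt f)))).card ≤
        ((univ : Finset (Fin d → Fin r → Fin L)).filter (fun f => (∀ j, Function.Injective (f j)) ∧
        Good (fun j i => φ j (f j i)))).card +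
        ((univ : Finset (Fin d → Fin r → Fin L)).filter (fun f => ¬ ∀ j, Function.Injective (f j))).card := by
      rw [← card_union_of_disjoint]
      · apply card_le_card
        intro f hf
        rw [mem_union, mem_filter, mem_filter]
        by_cases hi : ∀ j, Function.Injective (f j)
        · exact Or.inl ⟨mem_univ _, hi, hPG f hi (mem_filter.1 hf).2⟩
        · exact Or.inr ⟨mem_univ _, hi⟩
      · rw [Finset.disjoint_left]
        intro f hf hf'
        exact (mem_filter.1 hf').2 (mem_filter.1 hf).2.1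
    have e4 : (((univ : Finset (Fin d → Fin r → Fin L)).filter (fun f => ¬ ∀ j, Function.Injective (f j))).card : ℝ) ≤
        (d * (r * r) : ℝ) / L * ((L : ℝ) ^ r) ^ d := by
      rw [div_mul_eq_mul_div, le_div_iff₀ hL0]
      exact_mod_cast e2
    have e5 : (((univ : Finset (Fin d → Fin r → Fin L)).filter (fun f => P (F.image (pt f)))).card : ℝ) ≤
        (((univ : Finset (Fin d → Fin r → Fin L)).filter (fun f => (∀ j, Function.Injective (f j)) ∧
        Good (fun j i => φ j (f j i)))).card : ℝ) +
        (((univ : Finset (Fin d → Fin r → Fin L)).filter (fun f => ¬ ∀ j, Function.Injective (f j))).card : ℝ) := by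
      exact_mod_cast e3
    rw [sub_mul]
    linarith
  have h2 : ((K : ℝ) ^ L) ^ d * ((p ^ (F.card - 1) - (d * (r * r) : ℝ) / L) * ((L : ℝ) ^ r) ^ d) ≤
      ∑ f : Fin d → Fin r → Fin L, if (∀ j, Function.Injective (f j)) then
        (((univ : Finset (Fin d → Fin L → Fin K)).filter (fun φ => Good (fun j i => φ j (f j i)))).card : ℝ) else 0 := by
    have e1 : ((K : ℝ) ^ L) ^ d * ((p ^ (F.card - 1) - (d * (r * r) : ℝ) / L) * ((L : ℝ) ^ r) ^ d) =
        ∑ _φ : Fin d → Fin L → Fin K, (p ^ (F.card - 1) - (d * (r * r) : ℝ) / L) * ((L : ℝ) ^ r) ^ d := by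
      rw [sum_const, card_univ, nsmul_eq_mul]
      simp
    rw [e1]
    refine (sum_le_sum fun φ _ => h1 φ).trans (le_of_eq ?_)
    have e2 : ∀ φ : Fin d → Fin L → Fin K, (((univ : Finset (Fin d → Fin r → Fin L)).filter (fun f => (∀ j, Function.Injective (f j)) ∧
        Good (fun j i => φ j (f j i)))).card : ℝ) = ∑ f : Fin d → Fin r → Fin L,
          if (∀ j, Function.Injective (f j)) then (if Good (fun j i => φ j (f j i)) then (1 : ℝ) else 0) else 0 := by
      intro φ
      rw [card_filter, Nat.cast_sum]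
      refine sum_congr rfl fun f _ => ?_
      by_cases h1 : ∀ j, Function.Injective (f j) <;> by_cases h2 : Good (fun j i => φ j (f j i)) <;> simp [h1, h2]
    rw [sum_congr rfl fun φ _ => e2 φ, sum_comm]
    refine sum_congr rfl fun f _ => ?_
    by_cases hi : ∀ j, Function.Injective (f j)
    · simp only [if_pos hi]
      rw [card_filter, Nat.cast_sum]
      refine sum_congr rfl fun φ _ => ?_
      split_ifs <;> simp
    · simp only [if_neg hi, sum_const_zero]
  have h3 : ∀ f : Fin d → Fin r → Fin L, (if (∀ j, Function.Injective (f j)) then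
        (((univ : Finset (Fin d → Fin L → Fin K)).filter (fun φ => Good (fun j i => φ j (f j i)))).card : ℝ) else 0) ≤
      (((univ : Finset (Fin d → Fin r → Fin K)).filter Good).card : ℝ) * ((K : ℝ) ^ L) ^ d / ((K : ℝ) ^ r) ^ d := by
    intro f
    by_cases hi : ∀ j, Function.Injective (f j)
    · rw [if_pos hi, le_div_iff₀ (by positivity)]
      exact le_of_eq (by exact_mod_cast pull hK f hi Good)
    · rw [if_neg hi]
      positivity
  have h4 := h2.trans (sum_le_sum fun f _ => h3 f)
  rw [sum_const, card_univ, nsmul_eq_mul] at h4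
  have h5 : (Fintype.card (Fin d → Fin r → Fin L) : ℝ) = ((L : ℝ) ^ r) ^ d := by simp
  rw [h5] at h4
  set X := (((univ : Finset (Fin d → Fin r → Fin K)).filter Good).card : ℝ)
  set Y := p ^ (F.card - 1) - (d * (r * r) : ℝ) / L
  have hA : (0 : ℝ) < ((K : ℝ) ^ L) ^ d := by positivity
  have hB : (0 : ℝ) < ((L : ℝ) ^ r) ^ d := by positivity
  have hC : (0 : ℝ) < ((K : ℝ) ^ r) ^ d := by positivity
  have h6 : ((K : ℝ) ^ L) ^ d * ((L : ℝ) ^ r) ^ d * (Y * ((K : ℝ) ^ r) ^ d) ≤
      ((K : ℝ) ^ L) ^ d * ((L : ℝ) ^ r) ^ d * X := by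
    have := mul_le_mul_of_nonneg_right h4 hC.le
    calc _ = ((K : ℝ) ^ L) ^ d * (Y * ((L : ℝ) ^ r) ^ d) * ((K : ℝ) ^ r) ^ d := by ring
      _ ≤ _ := this
      _ = _ := by field_simp
  exact le_of_mul_le_mul_left h6 (by positivity)

end Pool.Agent.Q118.HL
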