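import Mathlib
import Pool.Agent.Q118.HL.Avg

/-! Proportions of subarrays with an exceptional set, rounding of weights, boxes. -/

set_option autoImplicit false

namespace Pool.Agent.Q118.HL

open Finset

open Classical in
theorem prop3 {d r L K : ℕ} (hL : 1 ≤ L) (hK : 1 ≤ K) (p : ℝ) (hp : 0 < p) (F : Finset (Fin d → Fin r))
    (hF : F.Nonempty) (hS : Sid F) (Good : (Fin d → Fin r → Fin K) → Prop)
    (E : Finset (Fin d → Fin L → Fin K)) (ε : ℝ) (hE : (E.card : ℝ) ≤ ε * ((K : ℝ) ^ L) ^ d)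
    (hpos : 0 ≤ p ^ (F.card - 1) - (d * (r * r) : ℝ) / L)
    (hG : ∀ φ : Fin d → Fin L → Fin K, φ ∉ E → ∃ P : Finset (Fin d → Fin L) → Prop, Carries p P ∧
      ∀ f : Fin d → Fin r → Fin L, (∀ j, Function.Injective (f j)) → P (F.image (pt f)) →
        Good (fun j i => φ j (f j i))) :
    (1 - ε) * (p ^ (F.card - 1) - (d * (r * r) : ℝ) / L) * ((K : ℝ) ^ r) ^ d ≤
      (((univ : Finset (Fin d → Fin r → Fin K)).filter Good).card : ℝ) := by
  have hL0 : (0 : ℝ) < L := by exact_mod_cast hL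
  have hK0 : (0 : ℝ) < K := by exact_mod_cast hK
  set Y := p ^ (F.card - 1) - (d * (r * r) : ℝ) / L with hY
  have h1 : ∀ φ : Fin d → Fin L → Fin K, φ ∉ E → Y * ((L : ℝ) ^ r) ^ d ≤
      (((univ : Finset (Fin d → Fin r → Fin L)).filter (fun f => (∀ j, Function.Injective (f j)) ∧
        Good (fun j i => φ j (f j i)))).card : ℝ) := by
    intro φ hφ
    obtain ⟨P, hP, hPG⟩ := hG φ hφ
    have e1 := prop1 hL P p hp hP F hF hS
    have e2 := noninj d r L
    have e3 : ((univ : Finset (Fin d → Fin r → Fin L)).filter (fun f => P (F.image (pt f)))).card ≤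
        ((univ : Finset (Fin d → Fin r → Fin L)).filter (fun f => (∀ j, Function.Injective (f j)) ∧
        Good (fun j i => φ j (f j i)))).card +
        ((univ : Finset (Fin d → Fin r → Fin L)).filter (fun f => ¬ ∀ j, Function.Injective (f j))).card := by
      rw [← card_union_of_disjoint]
      · apply card_le_card
        intro f hf
        rw [mem_union, mem_filter, mem_filter]
        by_cases hi : ∀ j, Function.Injective (f j)
        · exact Or.inl ⟨mem_univ _, hi, hPG f hi (mem_filter.1 hf).2⟩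
        · exact Or.inr ⟨mem_univ _, hi⟩
      · rw [Finset.disjoint_left]
        intro f hf hf'
        exact (mem_filter.1 hf').2 (mem_filter.1 hf).2.1
    have e4 : (((univ : Finset (Fin d → Fin r → Fin L)).filter (fun f => ¬ ∀ j, Function.Injective (f j))).card : ℝ) ≤
        (d * (r * r) : ℝ) / L * ((L : ℝ) ^ r) ^ d := by
      rw [div_mul_eq_mul_div, le_div_iff₀ hL0]
      exact_mod_cast e2
    have e5 : (((univ : Finset (Fin d → Fin r → Fin L)).filter (fun f => P (F.image (pt f)))).card : ℝ) ≤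
        (((univ : Finset (Fin d → Fin r → Fin L)).filter (fun f => (∀ j, Function.Injective (f j)) ∧
        Good (fun j i => φ j (f j i)))).card : ℝ) +
        (((univ : Finset (Fin d → Fin r → Fin L)).filter (fun f => ¬ ∀ j, Function.Injective (f j))).card : ℝ) := by
      exact_mod_cast e3
    rw [hY, sub_mul]
    linarith
  have hYL : 0 ≤ Y * ((L : ℝ) ^ r) ^ d := mul_nonneg hpos (by positivity)
  have h2 : (1 - ε) * ((K : ℝ) ^ L) ^ d * (Y * ((L : ℝ) ^ r) ^ d) ≤
      ∑ f : Fin d → Fin r → Fin L, if (∀ j, Function.Injective (f j)) then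
        (((univ : Finset (Fin d → Fin L → Fin K)).filter (fun φ => Good (fun j i => φ j (f j i)))).card : ℝ) else 0 := by
    have e1 : (1 - ε) * ((K : ℝ) ^ L) ^ d * (Y * ((L : ℝ) ^ r) ^ d) ≤
        ∑ _φ ∈ (univ : Finset (Fin d → Fin L → Fin K)) \ E, Y * ((L : ℝ) ^ r) ^ d := by
      rw [sum_const, nsmul_eq_mul]
      apply mul_le_mul_of_nonneg_right _ hYL
      have e2 : ((univ : Finset (Fin d → Fin L → Fin K)).card : ℝ) = ((K : ℝ) ^ L) ^ d := by
        rw [card_univ]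
        simp
      have e3 : (((univ : Finset (Fin d → Fin L → Fin K)) \ E).card : ℝ) = ((K : ℝ) ^ L) ^ d - E.card := by
        rw [card_sdiff_of_subset (subset_univ E), Nat.cast_sub (card_le_card (subset_univ E)), e2]
      rw [e3]
      linarith
    refine e1.trans ((sum_le_sum fun φ hφ => h1 φ (mem_sdiff.1 hφ).2).trans ?_)
    refine (sum_le_sum_of_subset_of_nonneg (subset_univ _) (fun _ _ _ => Nat.cast_nonneg _)).trans (le_of_eq ?_)
    have e2 : ∀ φ : Fin d → Fin L → Fin K, (((univ : Finset (Fin d → Fin r → Fin L)).filter (fun f => (∀ j, Function.Injective (f j)) ∧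
        Good (fun j i => φ j (f j i)))).card : ℝ) = ∑ f : Fin d → Fin r → Fin L,
          if (∀ j, Function.Injective (f j)) then (if Good (fun j i => φ j (f j i)) then (1 : ℝ) else 0) else 0 := by
      intro φ
      rw [card_filter, Nat.cast_sum]
      refine sum_congr rfl fun f _ => ?_
      by_cases h1 : ∀ j, Function.Injective (f j) <;> by_cases h2 : Good (fun j i => φ j (f j i)) <;> simp [h1, h2]
    rw [sum_congr rfl fun φ _ => e2 φ, sum_comm]
    refine sum_congr rfl fun f _ => ?_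
    by_cases hi : ∀ j, Function.Injective (f j)
    · simp only [if_pos hi]
      rw [card_filter, Nat.cast_sum]
      refine sum_congr rfl fun φ _ => ?_
      split_ifs <;> simp
    · simp only [if_neg hi, sum_const_zero]
  have h3 : ∀ f : Fin d → Fin r → Fin L, (if (∀ j, Function.Injective (f j)) then
        (((univ : Finset (Fin d → Fin L → Fin K)).filter (fun φ => Good (fun j i => φ j (f j i)))).card : ℝ) else 0) ≤
      (((univ : Finset (Fin d → Fin r → Fin K)).filter Good).card : ℝ) * ((K : ℝ) ^ L) ^ d / ((K : ℝ) ^ r) ^ d := by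
    intro f
    by_cases hi : ∀ j, Function.Injective (f j)
    · rw [if_pos hi, le_div_iff₀ (by positivity)]
      exact le_of_eq (by exact_mod_cast pull hK f hi Good)
    · rw [if_neg hi]
      positivity
  have h4 := h2.trans (sum_le_sum fun f _ => h3 f)
  rw [sum_const, card_univ, nsmul_eq_mul] at h4
  have h5 : (Fintype.card (Fin d → Fin r → Fin L) : ℝ) = ((L : ℝ) ^ r) ^ d := by simp
  rw [h5] at h4
  set X := (((univ : Finset (Fin d → Fin r → Fin K)).filter Good).card : ℝ)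
  have hA : (0 : ℝ) < ((K : ℝ) ^ L) ^ d := by positivity
  have hB : (0 : ℝ) < ((L : ℝ) ^ r) ^ d := by positivity
  have hC : (0 : ℝ) < ((K : ℝ) ^ r) ^ d := by positivity
  have h6 : ((K : ℝ) ^ L) ^ d * ((L : ℝ) ^ r) ^ d * ((1 - ε) * Y * ((K : ℝ) ^ r) ^ d) ≤
      ((K : ℝ) ^ L) ^ d * ((L : ℝ) ^ r) ^ d * X := by
    have := mul_le_mul_of_nonneg_right h4 hC.le
    calc _ = (1 - ε) * ((K : ℝ) ^ L) ^ d * (Y * ((L : ℝ) ^ r) ^ d) * ((K : ℝ) ^ r) ^ d := by ring
      _ ≤ _ := this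
      _ = _ := by field_simp
  exact le_of_mul_le_mul_left h6 (by positivity)

/-- rounding real weights to bounded integral ones -/
theorem rounding {Λ : Type} [Fintype Λ] {c : ℝ} (hc : 0 < c) (hc1 : c < 1) (w : Λ → ℝ) (hw : ∀ t, 0 ≤ w t)
    (hW : 0 < ∑ t, w t) (R : ℕ) (hRT : Fintype.card Λ < R)
    (hR : (Fintype.card Λ : ℝ) * (4 - c / 2) ≤ R * (c / 2)) :
    ∃ k : Λ → ℕ, 1 ≤ ∑ t, k t ∧ ∑ t, k t ≤ R ∧ ∀ (S : Finset Λ) (s : ℕ),
      ((∑ t, k t : ℕ) : ℝ) ≤ (4 - c) * s → s ≤ ∑ t ∈ S, k t → 1 / (4 - c / 2) * ∑ t, w t ≤ ∑ t ∈ S, w t := by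
  classical
  have h4 : (0 : ℝ) < 4 - c := by linarith
  have h42 : (0 : ℝ) < 4 - c / 2 := by linarith
  have hR0 : (0 : ℝ) < R := by exact_mod_cast (by omega : 0 < R)
  set W := ∑ t, w t with hWdef
  set k : Λ → ℕ := fun t => ⌊(R : ℝ) * w t / W⌋₊ with hk
  have hk1 : ∀ t, (k t : ℝ) ≤ R * w t / W := fun t => Nat.floor_le (by have := hw t; positivity)
  have hk2 : ∀ t, (R : ℝ) * w t / W - 1 ≤ k t := fun t => by linarith [Nat.lt_floor_add_one ((R : ℝ) * w t / W)]
  have hsum : ∑ t, (R : ℝ) * w t / W = R := by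
    rw [← sum_div, ← mul_sum, ← hWdef]
    field_simp
  have hT'1 : ((∑ t, k t : ℕ) : ℝ) ≤ R := by
    rw [Nat.cast_sum]
    exact (sum_le_sum fun t _ => hk1 t).trans hsum.le
  have hT'2 : (R : ℝ) - Fintype.card Λ ≤ ((∑ t, k t : ℕ) : ℝ) := by
    rw [Nat.cast_sum]
    refine le_trans (le_of_eq ?_) (sum_le_sum fun t _ => hk2 t)
    rw [sum_sub_distrib, hsum]
    simp
  refine ⟨k, ?_, by exact_mod_cast hT'1, fun S s h1 h2 => ?_⟩
  · have h5 : ((Fintype.card Λ : ℕ) : ℝ) + 1 ≤ R := by exact_mod_cast hRT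
    have h6 : (1 : ℝ) ≤ ((∑ t, k t : ℕ) : ℝ) := by linarith
    exact_mod_cast h6
  · have e1 : (s : ℝ) ≤ ∑ t ∈ S, (k t : ℝ) := by exact_mod_cast h2
    have e2 : ∑ t ∈ S, (k t : ℝ) ≤ R / W * ∑ t ∈ S, w t := by
      rw [mul_sum]
      refine sum_le_sum fun t _ => (hk1 t).trans (le_of_eq ?_)
      ring
    have e3 : (R : ℝ) - Fintype.card Λ ≤ (4 - c) * (R / W * ∑ t ∈ S, w t) :=
      (hT'2.trans h1).trans (mul_le_mul_of_nonneg_left (e1.trans e2) h4.le)
    rw [one_div_mul_eq_div, div_le_iff₀ h42]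
    have e5 : (R : ℝ) / W * ∑ t ∈ S, w t = R * (∑ t ∈ S, w t) / W := by ring
    rw [e5, ← mul_div_assoc, le_div_iff₀ hW] at e3
    have e6 : (R : ℝ) * (4 - c) ≤ (R - Fintype.card Λ) * (4 - c / 2) := by nlinarith
    have e7 : (R : ℝ) * (4 - c) * W ≤ (4 - c) * (R * ∑ t ∈ S, w t) * (4 - c / 2) := by
      calc (R : ℝ) * (4 - c) * W ≤ (R - Fintype.card Λ) * (4 - c / 2) * W := mul_le_mul_of_nonneg_right e6 hW.le
        _ = (R - Fintype.card Λ) * W * (4 - c / 2) := by ring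
        _ ≤ _ := mul_le_mul_of_nonneg_right e3 h42.le
    have e8 : (R : ℝ) * (4 - c) * W ≤ R * (4 - c) * ((∑ t ∈ S, w t) * (4 - c / 2)) := by
      calc _ ≤ _ := e7
        _ = _ := by ring
    exact le_of_mul_le_mul_left e8 (by positivity)

open Classical in
/-- dense sets of vectors contain products of `Q`-element sets (Erdős) -/
theorem box (L Q : ℕ) (ε : ℝ) (hε : 0 < ε) : ∃ n₀ : ℕ, 1 ≤ n₀ ∧ ∀ K : ℕ, n₀ ≤ K → ∀ S : Finset (Fin L → Fin K),
    ε * (K : ℝ) ^ L ≤ S.card → ∃ f : Fin L → Fin Q → Fin K, (∀ t, Function.Injective (f t)) ∧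
      ∀ i : Fin L → Fin Q, pt f i ∈ S := by
  set θ : ℝ := ε ^ (Q ^ L) with hθ
  have hθ0 : 0 < θ := by positivity
  obtain ⟨n, hn⟩ := exists_nat_gt ((L * (Q * Q) : ℝ) / θ)
  refine ⟨n + 1, by omega, fun K hK S hS => ?_⟩
  have hKn : (n : ℝ) ≤ K := by exact_mod_cast (by omega : n ≤ K)
  have hK1 : 1 ≤ K := by omega
  have hK0 : (0 : ℝ) < K := by exact_mod_cast hK1
  by_contra hcon
  have h1 := sid_univ L Q K hK1 S
  rw [card_univ] at h1
  have hcF : Fintype.card (Fin L → Fin Q) = Q ^ L := by simp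
  rw [hcF] at h1
  have h2 : θ * ((K : ℝ) ^ Q) ^ L ≤ ((S.card : ℝ) / (K : ℝ) ^ L) ^ (Q ^ L) * ((K : ℝ) ^ Q) ^ L := by
    apply mul_le_mul_of_nonneg_right _ (by positivity)
    apply pow_le_pow_left₀ hε.le
    rw [le_div_iff₀ (by positivity)]
    exact hS
  have h3 : ((univ : Finset (Fin L → Fin Q → Fin K)).filter (fun f => ∀ i ∈ (univ : Finset (Fin L → Fin Q)), pt f i ∈ S)).card ≤
      ((univ : Finset (Fin L → Fin Q → Fin K)).filter (fun f => ¬ ∀ j, Function.Injective (f j))).card := by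
    apply card_le_card
    intro f hf
    rw [mem_filter] at hf ⊢
    refine ⟨mem_univ _, fun hinj => hcon ⟨f, hinj, fun i => hf.2 i (mem_univ _)⟩⟩
  have h4 := noninj L Q K
  have h5 : (((univ : Finset (Fin L → Fin Q → Fin K)).filter (fun f => ¬ ∀ j, Function.Injective (f j))).card : ℝ) * K ≤
      L * (Q * Q) * ((K : ℝ) ^ Q) ^ L := by exact_mod_cast h4
  have h6 : θ * ((K : ℝ) ^ Q) ^ L * K ≤ L * (Q * Q) * ((K : ℝ) ^ Q) ^ L := by
    refine le_trans (mul_le_mul_of_nonneg_right ((h2.trans h1).trans ?_) hK0.le) h5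
    exact_mod_cast h3
  have h7 : (0 : ℝ) < ((K : ℝ) ^ Q) ^ L := by positivity
  have h8 : θ * K ≤ L * (Q * Q) := by
    have : θ * K * ((K : ℝ) ^ Q) ^ L ≤ L * (Q * Q) * ((K : ℝ) ^ Q) ^ L := by
      calc _ = _ := by ring
        _ ≤ _ := h6
    exact le_of_mul_le_mul_right this h7
  rw [div_lt_iff₀ hθ0] at hn
  nlinarith

end Pool.Agent.Q118.HL
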