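import Mathlib
import Pool.Agent.Q118.HL.Avg2

/-! The exact proportion theorem, combinatorial part. -/

set_option autoImplicit false

namespace Pool.Agent.Q118.HL

open Finset

open Classical in
theorem absExact {c : ℝ} (hc : 0 < c) (hc1 : c < 1) (k : ℕ) (hk : 1 ≤ k) {δ : ℝ} (hδ0 : 0 < δ)
    (hδ : δ < 1 / (4 - c / 2)) (Kf : ℕ → ℕ) : ∃ R n₀ : ℕ, ∀ K : ℕ, n₀ ≤ K →
      ∀ G : Finset (Fin K) → Prop, (∀ S S', S' ⊆ S → G S → G S') → G ∅ →
      (∀ T' : ℕ, 1 ≤ T' → T' ≤ R → ∀ a : Fin T' → Fin (Kf T') → Fin K,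
        (∀ g s g' s', a g s = a g' s' → g = g' ∧ s = s') →
        ∃ (S : Finset (Fin T')) (e : Fin T' → Fin (Kf T')), (T' : ℝ) ≤ (4 - c) * S.card ∧
          G (S.image (fun g => a g (e g)))) →
      δ ^ k * (K : ℝ) ^ (k + 1) ≤ (((univ : Finset (Fin (k + 1) → Fin K)).filter
        (fun g => Function.Injective g ∧ G (univ.image g))).card : ℝ) := by
  have h42 : (0 : ℝ) < 4 - c / 2 := by linarith
  set p : ℝ := 1 / (4 - c / 2) with hp
  have hp0 : 0 < p := by positivity
  have hp1 : p ≤ 1 := by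
    rw [hp, div_le_one h42]
    linarith
  have hgap : δ ^ k < p ^ k := pow_lt_pow_left₀ hδ hδ0.le (by omega)
  set gap := p ^ k - δ ^ k with hgapd
  have hgap0 : 0 < gap := by linarith
  have hpk1 : p ^ k ≤ 1 := pow_le_one₀ hp0.le hp1
  have hδk : 0 < δ ^ k := pow_pos hδ0 k
  obtain ⟨L, hL⟩ := exists_nat_gt (((1 : ℕ) * ((k + 1 : ℕ) * (k + 1 : ℕ)) : ℝ) / (gap / 4))
  have hLpos : (0 : ℝ) < L := lt_of_le_of_lt (by positivity) hL
  have hL1 : 1 ≤ L := by exact_mod_cast hLpos
  have hL2 : (((1 : ℕ) * ((k + 1 : ℕ) * (k + 1 : ℕ)) : ℝ)) / L ≤ gap / 4 := by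
    rw [div_lt_iff₀ (by linarith)] at hL
    rw [div_le_iff₀ hLpos]
    linarith
  set R : ℕ := ⌈8 * (L : ℝ) / c⌉₊ + L + 1 with hR
  have hRT : L < R := by omega
  have hRc : (L : ℝ) * (4 - c / 2) ≤ R * (c / 2) := by
    have h1 : 8 * (L : ℝ) / c ≤ R := (Nat.le_ceil _).trans (by exact_mod_cast (by omega : ⌈8 * (L : ℝ) / c⌉₊ ≤ R))
    rw [div_le_iff₀ hc] at h1
    nlinarith
  set Q : ℕ := R * (∑ T' ∈ Icc 1 R, Kf T') + 1 with hQ
  have hQ1 : 1 ≤ Q := by omega
  have hKQ : ∀ T', 1 ≤ T' → T' ≤ R → R * Kf T' ≤ Q := by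
    intro T' h1 h2
    have := single_le_sum (f := Kf) (fun _ _ => Nat.zero_le _) (mem_Icc.2 ⟨h1, h2⟩)
    have := Nat.mul_le_mul_left R this
    omega
  set Npat : ℕ := Fintype.card (Finset (Finset (Fin 1 → Fin L))) with hNpat
  have hNpat0 : (0 : ℝ) < Npat := by
    rw [hNpat]
    exact_mod_cast Fintype.card_pos
  set ε : ℝ := gap / 4 with hε
  have hε0 : 0 < ε := by positivity
  obtain ⟨n₁, hn₁, hbox⟩ := box L Q (ε / (2 * Npat)) (by positivity)
  obtain ⟨n₂, hn₂⟩ := exists_nat_gt (2 * ((L : ℝ) * L) / ε)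
  obtain ⟨n₃, hn₃⟩ := exists_nat_gt ((((1 : ℕ) * ((k + 1 : ℕ) * (k + 1 : ℕ)) : ℝ)) / (gap / 4))
  refine ⟨R, n₁ + n₂ + n₃, fun K hK G hsub hG0 hyp => ?_⟩
  have hK1 : 1 ≤ K := by omega
  have hK0 : (0 : ℝ) < K := by exact_mod_cast hK1
  -- the families
  set P : (Fin L → Fin K) → Finset (Fin 1 → Fin L) → Prop := fun τ S => G (S.image (fun ω => τ (ω 0))) with hP
  have hPsub : ∀ τ S S', S' ⊆ S → P τ S → P τ S' := fun τ S S' h1 h2 => hsub _ _ (image_subset_image h1) h2
  set pat : (Fin L → Fin K) → Finset (Finset (Fin 1 → Fin L)) := fun τ => univ.filter (P τ) with hpat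
  set SH : Finset (Finset (Fin 1 → Fin L)) → Finset (Fin L → Fin K) := fun H =>
    univ.filter (fun τ => Function.Injective τ ∧ ¬ Carries p (P τ) ∧ pat τ = H) with hSH
  have key : ∀ H, ((SH H).card : ℝ) < ε / (2 * Npat) * (K : ℝ) ^ L := by
    intro H
    by_contra hcon
    push Not at hcon
    obtain ⟨f, hf1, hf2⟩ := hbox K (by omega) (SH H) hcon
    have hf3 : ∀ t s t' s', f t s = f t' s' → t = t' ∧ s = s' := by
      intro t s t' s' h
      by_cases htt : t = t'
      · subst htt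
        exact ⟨rfl, hf1 t h⟩
      · exfalso
        apply htt
        have h1 := (mem_filter.1 (hf2 (Function.update (fun _ => s) t' s'))).2.1
        apply h1
        simp only [pt, Function.update_self, Function.update_of_ne htt]
        exact h
    let i0 : Fin L → Fin Q := fun _ => ⟨0, by omega⟩
    obtain ⟨-, hnc, hpat0⟩ := (mem_filter.1 (hf2 i0)).2
    have hw : ∃ w : (Fin 1 → Fin L) → ℝ, (∀ t, 0 ≤ w t) ∧ ∀ S, P (pt f i0) S → ∑ t ∈ S, w t < p * ∑ t, w t := by
      by_contra hno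
      push Not at hno
      apply hnc
      refine ⟨hPsub _, fun w hw => ?_⟩
      obtain ⟨S, hS1, hS2⟩ := hno w hw
      exact ⟨S, hS1, hS2⟩
    obtain ⟨w, hw0, hwS⟩ := hw
    have hW : 0 < ∑ t, w t := by
      have h1 := hwS ∅ (by rw [hP]; simpa using hG0)
      rw [sum_empty] at h1
      exact pos_of_mul_pos_right h1 hp0.le
    have hcL : Fintype.card (Fin 1 → Fin L) = L := by simp
    obtain ⟨κ, hκ1, hκ2, hκ⟩ := rounding hc hc1 w hw0 hW R (by rw [hcL]; exact hRT) (by rw [hcL]; exact hRc)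
    set T' := ∑ t, κ t with hT'
    let e : ((t : Fin 1 → Fin L) × Fin (κ t)) ≃ Fin T' := Fintype.equivFinOfCardEq (by simp [hT'])
    have hκR : ∀ t, κ t ≤ R := fun t => (single_le_sum (f := κ) (fun _ _ => Nat.zero_le _) (mem_univ t)).trans hκ2
    have hidx : ∀ (g : Fin T') (s : Fin (Kf T')), ((e.symm g).2 : ℕ) * Kf T' + s < Q := by
      intro g s
      have h1 : ((e.symm g).2 : ℕ) + 1 ≤ R := Nat.succ_le_of_lt (lt_of_lt_of_le (e.symm g).2.2 (hκR _))
      have h2 := Nat.mul_le_mul_right (Kf T') h1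
      have h3 := hKQ T' hκ1 hκ2
      have h4 := s.2
      have h5 : (((e.symm g).2 : ℕ) + 1) * Kf T' = ((e.symm g).2 : ℕ) * Kf T' + Kf T' := by ring
      omega
    set a : Fin T' → Fin (Kf T') → Fin K := fun g s => f ((e.symm g).1 0) ⟨_, hidx g s⟩ with ha
    have hainj : ∀ g s g' s', a g s = a g' s' → g = g' ∧ s = s' := by
      intro g s g' s' h
      obtain ⟨h1, h2⟩ := hf3 _ _ _ _ h
      have h3 : (e.symm g).1 = (e.symm g').1 := by
        funext j
        rw [Subsingleton.elim j 0]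
        exact h1
      have h4 : ((e.symm g).2 : ℕ) * Kf T' + s = ((e.symm g').2 : ℕ) * Kf T' + s' := congrArg Fin.val h2
      have hKf : 0 < Kf T' := by
        have := s.2
        omega
      have h5 : ((e.symm g).2 : ℕ) = (e.symm g').2 := by
        have e1 := congrArg (fun y => y / Kf T') h4
        beta_reduce at e1
        rw [Nat.mul_comm _ (Kf T'), Nat.mul_comm _ (Kf T'), Nat.mul_add_div hKf, Nat.mul_add_div hKf,
          Nat.div_eq_of_lt s.2, Nat.div_eq_of_lt s'.2] at e1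
        omega
      have h6 : (s : ℕ) = s' := by
        rw [h5] at h4
        omega
      refine ⟨?_, Fin.ext h6⟩
      apply e.symm.injective
      apply Sigma.ext h3
      clear h2 h1 h4
      generalize e.symm g = y at *
      generalize e.symm g' = y' at *
      obtain ⟨y1, y2⟩ := y
      obtain ⟨z1, z2⟩ := y'
      simp only at h3 h5
      subst h3
      exact heq_of_eq (Fin.ext h5)
    obtain ⟨S', σ, hS'1, hS'2⟩ := hyp T' hκ1 hκ2 a hainj
    set pos : Fin T' → (Fin 1 → Fin L) := fun g => (e.symm g).1 with hpos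
    have hfib : ∀ t, (S'.filter (fun j => pos j = t)).card ≤ κ t := by
      intro t
      have h1 : (S'.filter (fun j => pos j = t)).card ≤ (range (κ t)).card := by
        apply card_le_card_of_injOn (fun j => ((e.symm j).2 : ℕ))
        · intro j hj
          have h2 := (mem_filter.1 (mem_coe.1 hj)).2
          rw [mem_coe, mem_range, ← h2]
          exact (e.symm j).2.2
        · intro j hj j' hj' h
          have h2 := (mem_filter.1 (mem_coe.1 hj)).2
          have h3 := (mem_filter.1 (mem_coe.1 hj')).2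
          apply e.symm.injective
          apply Sigma.ext (h2.trans h3.symm)
          simp only at h
          rw [hpos] at h2 h3
          simp only at h2 h3
          generalize e.symm j = y at *
          generalize e.symm j' = y' at *
          obtain ⟨y1, y2⟩ := y
          obtain ⟨z1, z2⟩ := y'
          simp only at h2 h3 h
          subst h2
          subst h3
          exact heq_of_eq (Fin.ext h)
      rwa [card_range] at h1
    set S := S'.image pos with hS
    have hex : ∀ t : Fin L, ∃ i : Fin Q, (fun _ => t) ∈ S → ∃ g ∈ S', pos g = (fun _ => t) ∧ f t i = a g (σ g) := by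
      intro t
      by_cases ht : (fun _ => t) ∈ S
      · obtain ⟨g, hg, hgt⟩ := mem_image.1 ht
        refine ⟨⟨_, hidx g (σ g)⟩, fun _ => ⟨g, hg, hgt, ?_⟩⟩
        have h1 : (e.symm g).1 0 = t := congrFun hgt 0
        rw [ha]
        simp only
        rw [h1]
      · exact ⟨⟨0, by omega⟩, fun h => absurd h ht⟩
    choose i1 hi1 using hex
    have hpat1 := (mem_filter.1 (hf2 i1)).2.2.2
    have hmem : S ∈ pat (pt f i1) := by
      refine mem_filter.2 ⟨mem_univ _, ?_⟩
      refine hsub _ _ ?_ hS'2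
      intro y hy
      obtain ⟨ω, hω, rfl⟩ := mem_image.1 hy
      have hω0 : (fun _ => ω 0) = ω := by
        funext j
        rw [Subsingleton.elim j 0]
      obtain ⟨g, hg, hgt, hfa⟩ := hi1 (ω 0) (by rw [hω0]; exact hω)
      refine mem_image.2 ⟨g, hg, ?_⟩
      rw [← hfa]
      rfl
    rw [hpat1, ← hpat0] at hmem
    have h1 := hwS S (mem_filter.1 hmem).2
    have h2 := hκ S S'.card hS'1 (by
      rw [card_eq_sum_card_image pos S', ← hS]
      exact sum_le_sum fun t _ => hfib t)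
    linarith
  -- the exceptional set
  set E : Finset (Fin 1 → Fin L → Fin K) := univ.filter (fun φ => ¬ Carries p (P (φ 0))) with hE
  have hEcard : (E.card : ℝ) ≤ ε * ((K : ℝ) ^ L) ^ 1 := by
    have h1 : E ⊆ ((univ : Finset (Fin 1 → Fin L → Fin K)).filter (fun f => ¬ ∀ j, Function.Injective (f j))) ∪
        (univ : Finset (Finset (Finset (Fin 1 → Fin L)))).biUnion (fun H => (SH H).image (fun τ _ => τ)) := by
      intro φ hφ
      have h2 := (mem_filter.1 hφ).2
      by_cases hi : Function.Injective (φ 0)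
      · refine mem_union_right _ (mem_biUnion.2 ⟨pat (φ 0), mem_univ _, mem_image.2 ⟨φ 0, ?_, ?_⟩⟩)
        · exact mem_filter.2 ⟨mem_univ _, hi, h2, rfl⟩
        · funext j
          rw [Subsingleton.elim j 0]
      · exact mem_union_left _ (mem_filter.2 ⟨mem_univ _, fun h => hi (h 0)⟩)
    have h2 := (card_le_card h1).trans (card_union_le _ _)
    have h3 : (((univ : Finset (Fin 1 → Fin L → Fin K)).filter (fun f => ¬ ∀ j, Function.Injective (f j))).card : ℝ) ≤
        ε / 2 * (K : ℝ) ^ L := by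
      have h4 := noninj 1 L K
      have h5 : (((univ : Finset (Fin 1 → Fin L → Fin K)).filter (fun f => ¬ ∀ j, Function.Injective (f j))).card : ℝ) * K ≤
          (L * L) * (K : ℝ) ^ L := by
        have h6 : (((univ : Finset (Fin 1 → Fin L → Fin K)).filter (fun f => ¬ ∀ j, Function.Injective (f j))).card : ℝ) * K ≤
          1 * (L * L) * ((K : ℝ) ^ L) ^ 1 := by exact_mod_cast h4
        rwa [one_mul, pow_one] at h6
      have h6 : (n₂ : ℝ) ≤ K := by exact_mod_cast (by omega : n₂ ≤ K)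
      have h7 : 2 * ((L : ℝ) * L) ≤ ε * K := by
        rw [div_lt_iff₀ hε0] at hn₂
        nlinarith
      have h8 : (0 : ℝ) < (K : ℝ) ^ L := by positivity
      have h9 : (L * L : ℝ) * (K : ℝ) ^ L ≤ (ε / 2 * (K : ℝ) ^ L) * K := by nlinarith
      exact le_of_mul_le_mul_right (h5.trans h9) hK0
    have h4 : (((univ : Finset (Finset (Finset (Fin 1 → Fin L)))).biUnion
        (fun H => (SH H).image (fun τ (_ : Fin 1) => τ))).card : ℝ) ≤ ε / 2 * (K : ℝ) ^ L := by
      have h5 : ((univ : Finset (Finset (Finset (Fin 1 → Fin L)))).biUnion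
        (fun H => (SH H).image (fun τ (_ : Fin 1) => τ))).card ≤ ∑ H, (SH H).card :=
        card_biUnion_le.trans (sum_le_sum fun H _ => card_image_le)
      have h6 : ((∑ H, (SH H).card : ℕ) : ℝ) ≤ ∑ _H : Finset (Finset (Fin 1 → Fin L)), ε / (2 * Npat) * (K : ℝ) ^ L := by
        rw [Nat.cast_sum]
        exact sum_le_sum fun H _ => (key H).le
      rw [sum_const, card_univ, nsmul_eq_mul, ← hNpat] at h6
      calc _ ≤ ((∑ H, (SH H).card : ℕ) : ℝ) := by exact_mod_cast h5
        _ ≤ _ := h6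
        _ = ε / 2 * (K : ℝ) ^ L := by field_simp
    rw [pow_one]
    have h5 : (E.card : ℝ) ≤ (((univ : Finset (Fin 1 → Fin L → Fin K)).filter (fun f => ¬ ∀ j, Function.Injective (f j))).card : ℝ) +
        (((univ : Finset (Finset (Finset (Fin 1 → Fin L)))).biUnion
        (fun H => (SH H).image (fun τ (_ : Fin 1) => τ))).card : ℝ) := by exact_mod_cast h2
    linarith
  -- averaging
  have hcF : (univ : Finset (Fin 1 → Fin (k + 1))).card - 1 = k := by simp
  have hmain := prop3 (d := 1) (r := k + 1) (L := L) (K := K) hL1 hK1 p hp0 univ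
    (univ_nonempty) (sid_univ 1 (k + 1)) (fun g => G (univ.image (g 0))) E ε hEcard
    (by
      rw [hcF]
      linarith)
    (fun φ hφ => ⟨P (φ 0), by
      by_contra hcon
      exact hφ (mem_filter.2 ⟨mem_univ _, hcon⟩), fun f hf hPf => by
      refine hsub _ _ ?_ hPf
      intro y hy
      obtain ⟨s, -, rfl⟩ := mem_image.1 hy
      exact mem_image.2 ⟨pt f (fun _ => s), mem_image_of_mem _ (mem_univ _), rfl⟩⟩)
  rw [hcF, pow_one] at hmain
  have h1 : (((univ : Finset (Fin 1 → Fin (k + 1) → Fin K)).filter (fun g => G (univ.image (g 0)))).card : ℝ) ≤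
      (((univ : Finset (Fin (k + 1) → Fin K)).filter (fun g => Function.Injective g ∧ G (univ.image g))).card : ℝ) +
      (((univ : Finset (Fin 1 → Fin (k + 1) → Fin K)).filter (fun f => ¬ ∀ j, Function.Injective (f j))).card : ℝ) := by
    have h2 : (univ : Finset (Fin 1 → Fin (k + 1) → Fin K)).filter (fun g => G (univ.image (g 0))) ⊆
        (((univ : Finset (Fin (k + 1) → Fin K)).filter (fun g => Function.Injective g ∧ G (univ.image g))).image
          (fun g _ => g)) ∪
        ((univ : Finset (Fin 1 → Fin (k + 1) → Fin K)).filter (fun f => ¬ ∀ j, Function.Injective (f j))) := by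
      intro g hg
      have h3 := (mem_filter.1 hg).2
      by_cases hi : Function.Injective (g 0)
      · refine mem_union_left _ (mem_image.2 ⟨g 0, mem_filter.2 ⟨mem_univ _, hi, h3⟩, ?_⟩)
        funext j
        rw [Subsingleton.elim j 0]
      · exact mem_union_right _ (mem_filter.2 ⟨mem_univ _, fun h => hi (h 0)⟩)
    have h3 := (card_le_card h2).trans ((card_union_le _ _).trans (Nat.add_le_add_right card_image_le _))
    exact_mod_cast h3
  have h2 : (((univ : Finset (Fin 1 → Fin (k + 1) → Fin K)).filter (fun f => ¬ ∀ j, Function.Injective (f j))).card : ℝ) ≤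
      gap / 4 * (K : ℝ) ^ (k + 1) := by
    have h4 := noninj 1 (k + 1) K
    have h5 : (((univ : Finset (Fin 1 → Fin (k + 1) → Fin K)).filter (fun f => ¬ ∀ j, Function.Injective (f j))).card : ℝ) * K ≤
        ((1 : ℕ) * ((k + 1 : ℕ) * (k + 1 : ℕ)) : ℝ) * (K : ℝ) ^ (k + 1) := by
      have h6 : (((univ : Finset (Fin 1 → Fin (k + 1) → Fin K)).filter (fun f => ¬ ∀ j, Function.Injective (f j))).card : ℝ) * K ≤
        ((1 : ℕ) * ((k + 1 : ℕ) * (k + 1 : ℕ)) : ℝ) * ((K : ℝ) ^ (k + 1)) ^ 1 := by exact_mod_cast h4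
      rwa [pow_one] at h6
    have h6 : (n₃ : ℝ) ≤ K := by exact_mod_cast (by omega : n₃ ≤ K)
    have h7 : ((1 : ℕ) * ((k + 1 : ℕ) * (k + 1 : ℕ)) : ℝ) ≤ gap / 4 * K := by
      rw [div_lt_iff₀ (by linarith)] at hn₃
      have h8 : (0 : ℝ) < gap / 4 := by positivity
      nlinarith
    have h8 : (0 : ℝ) < (K : ℝ) ^ (k + 1) := by positivity
    have h9 : ((1 : ℕ) * ((k + 1 : ℕ) * (k + 1 : ℕ)) : ℝ) * (K : ℝ) ^ (k + 1) ≤ (gap / 4 * (K : ℝ) ^ (k + 1)) * K := by
      calc _ ≤ gap / 4 * K * (K : ℝ) ^ (k + 1) := mul_le_mul_of_nonneg_right h7 h8.le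
        _ = _ := by ring
    exact le_of_mul_le_mul_right (h5.trans h9) hK0
  have h3 : (δ ^ k + gap / 4) * (K : ℝ) ^ (k + 1) ≤
      (1 - ε) * (p ^ k - ((1 : ℕ) * ((k + 1 : ℕ) * (k + 1 : ℕ)) : ℝ) / L) * (K : ℝ) ^ (k + 1) := by
    apply mul_le_mul_of_nonneg_right _ (by positivity)
    have h4 : p ^ k - gap / 4 ≤ p ^ k - ((1 : ℕ) * ((k + 1 : ℕ) * (k + 1 : ℕ)) : ℝ) / L := by linarith
    have h5 : ε < 1 := by
      have : gap ≤ 1 := by linarith
      rw [hε]
      linarith
    have h6 : (1 - ε) * (p ^ k - gap / 4) ≤ (1 - ε) * (p ^ k - ((1 : ℕ) * ((k + 1 : ℕ) * (k + 1 : ℕ)) : ℝ) / L) :=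
      mul_le_mul_of_nonneg_left h4 (by linarith)
    refine le_trans ?_ h6
    have h7 : p ^ k - gap / 4 ≤ 1 := by linarith
    have h8 : ε * (p ^ k - gap / 4) ≤ ε := by nlinarith
    have h9 : (1 - ε) * (p ^ k - gap / 4) = p ^ k - gap / 4 - ε * (p ^ k - gap / 4) := by ring
    rw [h9]
    have h10 : δ ^ k = p ^ k - gap := by rw [hgapd]; ring
    rw [h10]
    linarith
  have h4 : (1 - ε) * (p ^ k - ((1 : ℕ) * ((k + 1 : ℕ) * (k + 1 : ℕ)) : ℝ) / L) * (K : ℝ) ^ (k + 1) ≤
      (((univ : Finset (Fin 1 → Fin (k + 1) → Fin K)).filter (fun g => G (univ.image (g 0)))).card : ℝ) := by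
    refine le_trans (le_of_eq ?_) hmain
    push_cast
    ring
  have h5 : (δ ^ k + gap / 4) * (K : ℝ) ^ (k + 1) = δ ^ k * (K : ℝ) ^ (k + 1) + gap / 4 * (K : ℝ) ^ (k + 1) := by ring
  linarith

end Pool.Agent.Q118.HL
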