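import Mathlib
import Pool.Agent.TH899.UG.Uni

/-! The uniform coloured Maynard-Tao theorem with exact shifts as large as the variable. -/

set_option autoImplicit false

namespace Pool.Agent.Q118.HL

open Finset Filter
open Pool.Agent.W25.UN
open Pool.Agent.W25.UB (CopAt)
open Pool.Agent.H410R2 (WW)
open Pool.Agent.TH899.UG
open Pool.Agent.TH899.UG.Uni (cl sx ix cl_ix ix_cl card_cl)

/-- a class avoided by few integers -/
theorem avoid (p : ℕ) {ι : Type} [Fintype ι] (h : ι → ℤ) (hp : Fintype.card ι < p) :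
    ∃ n : ℤ, ∀ i, ¬ (p : ℤ) ∣ n + h i := by
  classical
  by_contra hcon
  push Not at hcon
  choose f hf using fun n : Fin p => hcon (n : ℤ)
  obtain ⟨n, n', hne, hff⟩ := Fintype.exists_ne_map_eq_of_card_lt f (by rw [Fintype.card_fin]; exact hp)
  have h1 := hf n
  have h2 := hf n'
  rw [← hff] at h2
  have h3 : (p : ℤ) ∣ (n : ℤ) - n' := by
    have := dvd_sub h1 h2
    rwa [add_sub_add_right_eq_sub] at this
  apply hne
  have h4 : ((n : ℤ) - n').natAbs < p := by
    have := n.2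
    have := n'.2
    omega
  have h5 := Int.eq_zero_of_abs_lt_dvd h3 (by rw [Int.abs_eq_natAbs]; exact_mod_cast h4)
  exact Fin.ext (by omega)

/-- the shifts `a g s`, `s : Fin K`, form the `g`-th class; `b` is one further integer -/
theorem exactCol : ∃ c : ℝ, 0 < c ∧ c < 1 ∧ ∀ T M : ℕ, 1 ≤ T → (4 - c) * M < T → ∃ K z : ℕ, 1 ≤ K ∧
    ∀ η : ℝ, 0 < η → ∀ᶠ N : ℕ in atTop, ∀ (b : ℕ) (a : Fin T → Fin K → ℕ),
      (∀ g s, a g s ≠ b) → (∀ g s g' s', a g s = a g' s' → g = g' ∧ s = s') →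
      64 * b ≤ N → (∀ g s, 64 * a g s ≤ N) →
      (∀ p : ℕ, p ≤ z → p.Prime → ∃ r : ℕ, ¬ b ≡ r [MOD p] ∧ ∀ g s, ¬ a g s ≡ r [MOD p]) →
      ∃ (S : Finset (Fin T)) (e : Fin T → Fin K), M + 1 ≤ S.card ∧
        (N : ℝ) ^ (1 - η) ≤ ({n : ℕ | n ≤ N ∧ ∀ g ∈ S, (n + a g (e g)).Prime}.ncard : ℝ) := by
  classical
  obtain ⟨c, hc, hc1, H⟩ := thmVGH
  refine ⟨c, hc, hc1, ?_⟩
  intro T M hT hTM
  obtain ⟨K, hK, D₀, H⟩ := H T M hT hTM
  obtain ⟨DW, hWF⟩ := Pool.Agent.W493.UN.WD.main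
  set D : ℕ := D₀ + DW + 1 with hD
  obtain ⟨-, -, -, -, hv⟩ := hWF D (by omega)
  set k : ℕ := T * K with hk
  have hKpos : 0 < K := by omega
  have : NeZero K := ⟨by omega⟩
  refine ⟨K, k + 1, hKpos, fun η hη => ?_⟩
  have h2 := H D (by omega) (fun _ : Fin (T * K) => 1) cl card_cl (fun _ => one_ne_zero)
    (fun _ => by show (1 : ℤ).natAbs ≤ D; simp; omega) (η / 2) (by positivity)
  set P : ℕ := 2 ^ T * K ^ T with hP
  have h3 : ∀ᶠ N : ℕ in atTop, (P : ℝ) < (N : ℝ) ^ (η / 2) :=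
    ((tendsto_rpow_atTop (by positivity)).comp tendsto_natCast_atTop_atTop).eventually_gt_atTop _
  filter_upwards [h2, h3, eventually_ge_atTop 1] with N hN2 hN3 hN1 b a hab hinj hbN haN hadm
  set h : Fin (T * K) → ℤ := fun i => (a (cl i) (sx i) : ℤ) - b with hh
  have hHB : HB h 0 N := by
    intro i
    have e1 : (64 * a (cl i) (sx i) : ℤ) ≤ N := by exact_mod_cast haN (cl i) (sx i)
    have e2 : (64 * b : ℤ) ≤ N := by exact_mod_cast hbN
    have e3 : |((0 : ℕ) : ℤ) + h i| ≤ a (cl i) (sx i) + b := by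
      rw [Nat.cast_zero, zero_add, hh]
      refine (abs_sub _ _).trans ?_
      simp
    have e4 : (0 : ℤ) ≤ N := Nat.cast_nonneg _
    linarith
  have hNd : Nd (fun _ : Fin (T * K) => 1) h 0 := by
    intro j l hjl
    rcases j with _ | j <;> rcases l with _ | l
    · exact absurd rfl hjl
    · simp only [uB, wB]
      intro h0
      have h5 : (a (cl l) (sx l) : ℤ) = b := by
        rw [hh] at h0
        push_cast at h0
        linarith
      exact hab _ _ (by exact_mod_cast h5)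
    · simp only [uB, wB]
      intro h0
      have h5 : (a (cl j) (sx j) : ℤ) = b := by
        rw [hh] at h0
        push_cast at h0
        linarith
      exact hab _ _ (by exact_mod_cast h5)
    · have hne : j ≠ l := fun h => hjl (by rw [h])
      simp only [uB, wB]
      intro h0
      apply hne
      have h5 : (a (cl j) (sx j) : ℤ) = a (cl l) (sx l) := by
        rw [hh] at h0
        push_cast at h0
        linarith
      obtain ⟨h6, h7⟩ := hinj _ _ _ _ (by exact_mod_cast h5 : a (cl j) (sx j) = a (cl l) (sx l))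
      rw [← ix_cl j, ← ix_cl l, h6, h7]
  have hPR : PosR (fun _ : Fin (T * K) => 1) h 0 N := by
    intro i x hx1 hx2
    have e2 : (64 * b : ℝ) ≤ N := by exact_mod_cast hbN
    have e3 : (0 : ℝ) ≤ a (cl i) (sx i) := Nat.cast_nonneg _
    rw [hh]
    push_cast
    linarith
  have hadm2 : ∀ p : ℕ, p.Prime → ∃ n : ℤ, ¬ (p : ℤ) ∣ n ∧
      ∀ i, ¬ (p : ℤ) ∣ Fm (fun _ : Fin (T * K) => 1) h 0 i n := by
    intro p hp
    by_cases hpz : p ≤ k + 1
    · obtain ⟨r, hr1, hr2⟩ := hadm p hpz hp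
      refine ⟨(b : ℤ) - r, fun hd => hr1 ?_, fun i hd => hr2 (cl i) (sx i) ?_⟩
      · rw [← Int.natCast_modEq_iff]
        exact ((Int.modEq_iff_dvd).2 (by simpa using hd)).symm
      · rw [← Int.natCast_modEq_iff]
        refine ((Int.modEq_iff_dvd).2 ?_).symm
        have h5 : Fm (fun _ : Fin (T * K) => 1) h 0 i ((b : ℤ) - r) = a (cl i) (sx i) - r := by
          unfold Fm
          rw [hh]
          push_cast
          ring
        rwa [h5] at hd
    · obtain ⟨n, hn⟩ := avoid p (fun j : Option (Fin (T * K)) => j.elim 0 h) (by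
        rw [Fintype.card_option, Fintype.card_fin]
        omega)
      refine ⟨n, by simpa using hn none, fun i => ?_⟩
      have h5 := hn (some i)
      unfold Fm
      simpa using h5
  obtain ⟨v, hv⟩ := hv 0 (T * K) (fun _ : Fin (T * K) => 1) h hadm2
  have hmain := hN2 h 0 hHB hNd hPR v hv
  -- pigeonhole
  set Q : Finset (Finset (Fin T) × (Fin T → Fin K)) := univ.filter (fun q => M + 1 ≤ q.1.card)
    with hQ
  set B : Finset (Fin T) × (Fin T → Fin K) → Finset ℕ := fun q => (Icc 1 N).filter (fun n : ℕ =>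
    (N : ℝ) / 16 ≤ n ∧
      ∀ g ∈ q.1, (Fm (fun _ : Fin (T * K) => 1) h 0 (ix g (q.2 g)) n).toNat.Prime) with hB
  have hsub : (Icc 1 N).filter (fun n : ℕ => n ≡ v [MOD (WW D)] ∧
        (N : ℝ) / 16 ≤ n ∧ (n : ℝ) ≤ N / 2 ∧
        M + 1 ≤ (univ.filter (fun g : Fin T => ∃ i, cl i = g ∧
          (Fm (fun _ : Fin (T * K) => 1) h 0 i n).toNat.Prime)).card) ⊆ Q.biUnion B := by
    intro n hn
    rw [mem_filter] at hn
    obtain ⟨hn1, -, hn3, hn4, hn5⟩ := hn
    set S : Finset (Fin T) := univ.filter (fun g : Fin T => ∃ i, cl i = g ∧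
          (Fm (fun _ : Fin (T * K) => 1) h 0 i n).toNat.Prime) with hS
    have hex : ∀ g : Fin T, ∃ s : Fin K, g ∈ S →
        (Fm (fun _ : Fin (T * K) => 1) h 0 (ix g s) n).toNat.Prime := by
      intro g
      by_cases hg : g ∈ S
      · obtain ⟨i, hi1, hi2⟩ := (mem_filter.1 hg).2
        refine ⟨sx i, fun _ => ?_⟩
        rw [← hi1, ix_cl]
        exact hi2
      · exact ⟨0, fun h => absurd h hg⟩
    choose σ hσ using hex
    exact mem_biUnion.2 ⟨(S, σ), mem_filter.2 ⟨mem_univ _, hn5⟩,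
      mem_filter.2 ⟨hn1, hn3, fun g hg => hσ g hg⟩⟩
  have hNpos : (0 : ℝ) < N := by exact_mod_cast hN1
  have hbig : ∃ q ∈ Q, (N : ℝ) ^ (1 - η) ≤ ((B q).card : ℝ) := by
    by_contra hcon
    push Not at hcon
    have e1 := (Nat.cast_le (α := ℝ)).2 ((card_le_card hsub).trans card_biUnion_le)
    rw [Nat.cast_sum] at e1
    have e2 : ∑ q ∈ Q, ((B q).card : ℝ) ≤ Q.card • (N : ℝ) ^ (1 - η) :=
      Finset.sum_le_card_nsmul _ _ _ (fun q hq => (hcon q hq).le)
    have e3 : Q.card ≤ P := by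
      refine (card_le_univ _).trans ?_
      rw [Fintype.card_prod, Fintype.card_finset, Fintype.card_fun, Fintype.card_fin,
        Fintype.card_fin]
    have e4 : (Q.card : ℝ) ≤ P := by exact_mod_cast e3
    have e5 : (0 : ℝ) < (N : ℝ) ^ (1 - η) := Real.rpow_pos_of_pos hNpos _
    have e6 : (N : ℝ) ^ (1 - η / 2) = (N : ℝ) ^ (η / 2) * (N : ℝ) ^ (1 - η) := by
      rw [← Real.rpow_add hNpos]
      congr 1
      ring
    rw [nsmul_eq_mul] at e2
    have e7 := hmain.trans (e1.trans (e2.trans (mul_le_mul_of_nonneg_right e4 e5.le)))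
    rw [e6] at e7
    have e8 := le_of_mul_le_mul_right e7 e5
    linarith
  obtain ⟨⟨S, σ⟩, hq, hbig⟩ := hbig
  refine ⟨S, σ, (mem_filter.1 hq).2, hbig.trans ?_⟩
  have hfin : {n : ℕ | n ≤ N ∧ ∀ g ∈ S, (n + a g (σ g)).Prime}.Finite :=
    (Set.finite_Iic N).subset fun _ h => h.1
  rw [Nat.cast_le, ← Set.ncard_coe_finset]
  have hbn : ∀ n ∈ B (S, σ), b ≤ n := by
    intro n hn
    have h5 := (mem_filter.1 hn).2.1
    have e2 : (64 * b : ℝ) ≤ N := by exact_mod_cast hbN
    have e3 : (0 : ℝ) ≤ b := Nat.cast_nonneg _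
    have h6 : (b : ℝ) ≤ n := by linarith
    exact_mod_cast h6
  refine Set.ncard_le_ncard_of_injOn (fun n : ℕ => n - b) ?_ ?_ hfin
  · intro n hn
    have hn' := mem_coe.1 hn
    obtain ⟨h5, h6, h7⟩ := mem_filter.1 hn'
    refine ⟨(Nat.sub_le _ _).trans (mem_Icc.1 h5).2, fun g hg => ?_⟩
    have h8 := h7 g hg
    have h9 : (Fm (fun _ : Fin (T * K) => 1) h 0 (ix g (σ g)) n).toNat = n - b + a g (σ g) := by
      have hb := hbn n hn'
      unfold Fm
      rw [hh]
      simp only [cl_ix]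
      have hsx : sx (ix g (σ g)) = σ g := by
        unfold sx ix
        rw [Equiv.symm_apply_apply]
      rw [hsx]
      push_cast
      omega
    rwa [h9] at h8
  · intro n hn n' hn' hnn
    have h5 := hbn n (mem_coe.1 hn)
    have h6 := hbn n' (mem_coe.1 hn')
    simp only at hnn
    omega

end Pool.Agent.Q118.HL
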