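import Mathlib
import Pool.Agent.Q118.HL.Comb
import Pool.Agent.Q118.HL.Exact

/-! The proportion of exact tuples, uniformly in sets of shifts as large as the variable. -/

set_option autoImplicit false

namespace Pool.Agent.Q118.HL

open Finset Filter

open Classical in
theorem exProp : ∃ δ : ℝ, 1 / 4 < δ ∧ ∀ k : ℕ, 1 ≤ k → ∃ z n₀ : ℕ, ∀ η : ℝ, 0 < η → ∀ᶠ x : ℕ in atTop,
    ∀ V : Finset ℕ, (∀ v ∈ V, 64 * v ≤ x) → (∀ p : ℕ, p ≤ z → p.Prime → ∃ r : ℕ, ∀ v ∈ V, ¬ v ≡ r [MOD p]) →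
      n₀ ≤ V.card → δ ^ k * (V.card : ℝ) ^ (k + 1) ≤
        (((Fintype.piFinset (fun _ : Fin (k + 1) => V)).filter (fun a => Function.Injective a ∧
          (x : ℝ) ^ (1 - η) ≤ ({n : ℕ | n ≤ x ∧ ∀ i, (n + a i).Prime}.ncard : ℝ))).card : ℝ) := by
  obtain ⟨c, hc, hc1, H⟩ := exactCol
  have h4 : (0 : ℝ) < 4 - c := by linarith
  have h42 : (0 : ℝ) < 4 - c / 2 := by linarith
  have hp : (1 : ℝ) / 4 < 1 / (4 - c / 2) := by
    apply one_div_lt_one_div_of_lt h42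
    linarith
  refine ⟨(1 / 4 + 1 / (4 - c / 2)) / 2, by linarith, fun k hk => ?_⟩
  set δ : ℝ := (1 / 4 + 1 / (4 - c / 2)) / 2 with hδ
  have hM : ∀ T : ℕ, 1 ≤ T → ∃ M : ℕ, (4 - c) * M < T ∧ (T : ℝ) ≤ (4 - c) * (M + 1 : ℕ) := by
    intro T hT
    have hT0 : (0 : ℝ) < T := by exact_mod_cast hT
    have hpos : 0 < ⌈(T : ℝ) / (4 - c)⌉₊ := Nat.ceil_pos.2 (by positivity)
    refine ⟨⌈(T : ℝ) / (4 - c)⌉₊ - 1, ?_, ?_⟩
    · have hM2 : ((⌈(T : ℝ) / (4 - c)⌉₊ - 1 : ℕ) : ℝ) < (T : ℝ) / (4 - c) := Nat.lt_ceil.1 (by omega)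
      rw [lt_div_iff₀ h4] at hM2
      linarith
    · rw [Nat.sub_add_cancel hpos]
      have h5 : (T : ℝ) / (4 - c) ≤ (⌈(T : ℝ) / (4 - c)⌉₊ : ℝ) := Nat.le_ceil _
      rw [div_le_iff₀ h4] at h5
      linarith
  choose! Mf hMf1 hMf2 using hM
  choose! Kf zf hKf1 hKf using fun (T : ℕ) (hT : 1 ≤ T) => H T (Mf T) hT (hMf1 T hT)
  obtain ⟨R, n₀, habs⟩ := absExact hc hc1 k hk (δ := δ) (by linarith) (by linarith) Kf
  set z := ∑ T ∈ Icc 1 R, zf T with hz
  set n₁ := ∑ T ∈ Icc 1 R, T * Kf T + 1 with hn₁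
  refine ⟨z, n₀ + n₁, fun η hη => ?_⟩
  have hall : ∀ᶠ x : ℕ in atTop, ∀ T ∈ Icc 1 R, ∀ (b : ℕ) (a : Fin T → Fin (Kf T) → ℕ),
      (∀ g s, a g s ≠ b) → (∀ g s g' s', a g s = a g' s' → g = g' ∧ s = s') →
      64 * b ≤ x → (∀ g s, 64 * a g s ≤ x) →
      (∀ p : ℕ, p ≤ zf T → p.Prime → ∃ r : ℕ, ¬ b ≡ r [MOD p] ∧ ∀ g s, ¬ a g s ≡ r [MOD p]) →
      ∃ (S : Finset (Fin T)) (e : Fin T → Fin (Kf T)), Mf T + 1 ≤ S.card ∧
        (x : ℝ) ^ (1 - η) ≤ ({n : ℕ | n ≤ x ∧ ∀ g ∈ S, (n + a g (e g)).Prime}.ncard : ℝ) := by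
    rw [eventually_all_finset]
    intro T hT
    exact hKf T (mem_Icc.1 hT).1 η hη
  filter_upwards [hall, eventually_ge_atTop 1] with x hx hx1 V hV64 hVz hVn
  set K := V.card with hK
  let u : Fin K ↪o ℕ := V.orderEmbOfFin hK.symm
  have huV : ∀ i, u i ∈ V := fun i => V.orderEmbOfFin_mem hK.symm i
  set G : Finset (Fin K) → Prop := fun S =>
    (x : ℝ) ^ (1 - η) ≤ ({n : ℕ | n ≤ x ∧ ∀ i ∈ S, (n + u i).Prime}.ncard : ℝ) with hG
  have hfin : ∀ S : Finset (Fin K), {n : ℕ | n ≤ x ∧ ∀ i ∈ S, (n + u i).Prime}.Finite := fun S =>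
    (Set.finite_Iic x).subset fun _ h => h.1
  have hGsub : ∀ S S', S' ⊆ S → G S → G S' := by
    intro S S' hSS h
    refine h.trans ?_
    rw [Nat.cast_le]
    apply Set.ncard_le_ncard _ (hfin _)
    intro n hn
    exact ⟨hn.1, fun i hi => hn.2 i (hSS hi)⟩
  have hxr : (1 : ℝ) ≤ x := by exact_mod_cast hx1
  have hG0 : G ∅ := by
    have e1 : (x : ℝ) ^ (1 - η) ≤ x := by
      conv_rhs => rw [← Real.rpow_one (x : ℝ)]
      exact Real.rpow_le_rpow_of_exponent_le hxr (by linarith)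
    refine e1.trans ?_
    have h1 : {n : ℕ | n ≤ x ∧ ∀ i ∈ (∅ : Finset (Fin K)), (n + u i).Prime} = ((Finset.range (x + 1) : Finset ℕ) : Set ℕ) := by
      ext n
      simp
    rw [Nat.cast_le, h1, Set.ncard_coe_finset, card_range]
    omega
  have hmain := habs K (by omega) G hGsub hG0 (by
    intro T hT1 hTR a ha
    have hTm : T ∈ Icc 1 R := mem_Icc.2 ⟨hT1, hTR⟩
    -- a further element
    have hex : ∃ b : Fin K, ∀ g s, a g s ≠ b := by
      by_contra hcon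
      push Not at hcon
      have h1 : (univ : Finset (Fin K)) ⊆ (univ : Finset (Fin T × Fin (Kf T))).image (fun y => a y.1 y.2) := by
        intro b _
        obtain ⟨g, s, h⟩ := hcon b
        exact mem_image.2 ⟨(g, s), mem_univ _, h⟩
      have h2 := (card_le_card h1).trans card_image_le
      rw [card_univ, card_univ, Fintype.card_fin, Fintype.card_prod, Fintype.card_fin, Fintype.card_fin] at h2
      have h3 := single_le_sum (f := fun T => T * Kf T) (fun _ _ => Nat.zero_le _) hTm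
      omega
    obtain ⟨b, hb⟩ := hex
    obtain ⟨S, e, hS, hcnt⟩ := hx T hTm (u b) (fun g s => u (a g s)) (fun g s h => hb g s (u.injective h))
      (fun g s g' s' h => ha g s g' s' (u.injective h)) (hV64 _ (huV b)) (fun g s => hV64 _ (huV _))
      (by
        intro p hp hpp
        have h1 := single_le_sum (f := zf) (fun _ _ => Nat.zero_le _) hTm
        obtain ⟨r, hr⟩ := hVz p (by omega) hpp
        exact ⟨r, hr _ (huV b), fun g s => hr _ (huV _)⟩)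
    refine ⟨S, e, ?_, hcnt.trans ?_⟩
    · refine (hMf2 T hT1).trans ?_
      apply mul_le_mul_of_nonneg_left _ h4.le
      exact_mod_cast hS
    · rw [Nat.cast_le]
      apply Set.ncard_le_ncard _ (hfin _)
      intro n hn
      refine ⟨hn.1, fun i hi => ?_⟩
      obtain ⟨g, hg, rfl⟩ := mem_image.1 hi
      exact hn.2 g hg)
  refine hmain.trans ?_
  rw [Nat.cast_le]
  apply card_le_card_of_injOn (fun g i => u (g i))
  · intro g hg
    obtain ⟨-, hg1, hg2⟩ := mem_filter.1 (mem_coe.1 hg)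
    rw [mem_coe, mem_filter, Fintype.mem_piFinset]
    refine ⟨fun i => huV _, fun i j h => hg1 (u.injective h), hg2.trans ?_⟩
    rw [Nat.cast_le]
    have hfin2 : {n : ℕ | n ≤ x ∧ ∀ i, (n + u (g i)).Prime}.Finite := (Set.finite_Iic x).subset fun _ h => h.1
    apply Set.ncard_le_ncard _ hfin2
    intro n hn
    exact ⟨hn.1, fun i => hn.2 _ (mem_image_of_mem _ (mem_univ _))⟩
  · intro g _ g' _ h
    funext i
    exact u.injective (congrFun h i)

end Pool.Agent.Q118.HL
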