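import Mathlib
import Pool.Agent.Q118.HL.Avg

/-! From the uniform coloured Maynard-Tao theorem to families which carry more than a quarter of every weight. -/

set_option autoImplicit false

namespace Pool.Agent.Q118.HL

open Finset Filter

/-- positivity of the linear forms -/
def PosF {T : ℕ} (a b : Fin T → ℤ) (N : ℕ) : Prop :=
  ∀ (i : Fin T) (x : ℝ), (N : ℝ) / 16 ≤ x → x ≤ N / 2 → (N : ℝ) / 32 ≤ a i * x + b i

open Classical in
/-- the statement of the uniform coloured theorem `Pool.Agent.TH899.UG.Uni.uniM` -/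
def UniM : Prop := ∃ c : ℝ, 0 < c ∧ c < 1 ∧ ∀ T M A m : ℕ, 1 ≤ T → (4 - c) * M < T → ∃ C : ℕ,
    ∀ η : ℝ, 0 < η → ∀ᶠ N : ℕ in atTop, ∀ a b : Fin T → ℤ, (∀ i, a i ≠ 0) → (∀ i, |a i| ≤ A) →
      (∀ i, 4 * |b i| ≤ 5 * (N : ℤ)) → PosF a b N →
      ∃ (S : Finset (Fin T)) (E : Fin T → Finset ℕ), M + 1 ≤ S.card ∧
        (∀ i, ∀ e ∈ E i, e ≤ C) ∧ (∀ i ∈ S, (E i).card = m) ∧
        (∀ i j, i ≠ j → ∀ e ∈ E i, ∀ f ∈ E j, a i * (b j + f) ≠ a j * (b i + e)) ∧
        (N : ℝ) ^ (1 - η) ≤ (((Icc 1 N).filter (fun n : ℕ => (N : ℝ) / 16 ≤ n ∧ (n : ℝ) ≤ N / 2 ∧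
          ∀ i ∈ S, ∀ e ∈ E i, (a i * n + (b i + e)).toNat.Prime)).card : ℝ)

/-- The entries `u t`, `t ∈ S`, can be replaced by sets `A t` of `m` integers each, at a distance of at most `C` from
`u t` and pairwise disjoint, such that for at least `x ^ (1 - η)` integers `0 ≤ n ≤ C x` all the numbers `n + a`,
`a ∈ A t`, `t ∈ S`, are primes. -/
def GoodOn (C m : ℕ) (η : ℝ) (x : ℕ) {V : Type} (S : Finset V) (u : V → ℤ) : Prop :=
  ∃ A : V → Finset ℤ, (∀ t ∈ S, (A t).card = m ∧ ∀ a ∈ A t, |a - u t| ≤ C) ∧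
    (∀ t ∈ S, ∀ t' ∈ S, t ≠ t' → Disjoint (A t) (A t')) ∧
    (x : ℝ) ^ (1 - η) ≤ ({n : ℕ | n ≤ C * x ∧ ∀ t ∈ S, ∀ a ∈ A t, ((n : ℤ) + a).toNat.Prime}.ncard : ℝ)

theorem fin_set (X : ℕ) (p : ℕ → Prop) : {n : ℕ | n ≤ X ∧ p n}.Finite :=
  (Set.finite_Iic X).subset fun _ h => h.1

theorem GoodOn.mono {C C' m : ℕ} {η : ℝ} {x : ℕ} {V : Type} {S S' : Finset V} {u : V → ℤ} (hC : C ≤ C')
    (hS : S' ⊆ S) (h : GoodOn C m η x S u) : GoodOn C' m η x S' u := by
  classical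
  obtain ⟨A, h1, h2, h3⟩ := h
  refine ⟨A, fun t ht => ⟨(h1 t (hS ht)).1, fun a ha => ((h1 t (hS ht)).2 a ha).trans (by exact_mod_cast hC)⟩,
    fun t ht t' ht' => h2 t (hS ht) t' (hS ht'), h3.trans ?_⟩
  rw [Nat.cast_le]
  apply Set.ncard_le_ncard _ (fin_set _ _)
  intro n hn
  exact ⟨hn.1.trans (Nat.mul_le_mul_right _ hC), fun t ht => hn.2 t (hS ht)⟩

theorem star (H : UniM) : ∃ c : ℝ, 0 < c ∧ c < 1 ∧ ∀ T m : ℕ, 1 ≤ T → ∃ C : ℕ, ∀ η : ℝ, 0 < η →
    ∀ᶠ x : ℕ in atTop, ∀ v : Fin T → ℤ, (∀ i, |v i| ≤ x) →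
      ∃ S : Finset (Fin T), (T : ℝ) ≤ (4 - c) * S.card ∧ GoodOn C m η x S v := by
  classical
  obtain ⟨c, hc, hc1, H⟩ := H
  refine ⟨c, hc, hc1, fun T m hT => ?_⟩
  have h4 : (0 : ℝ) < 4 - c := by linarith
  have hT0 : (0 : ℝ) < T := by exact_mod_cast hT
  set M : ℕ := ⌈(T : ℝ) / (4 - c)⌉₊ - 1 with hM
  have hpos : 0 < ⌈(T : ℝ) / (4 - c)⌉₊ := Nat.ceil_pos.2 (by positivity)
  have hM1 : M + 1 = ⌈(T : ℝ) / (4 - c)⌉₊ := by omega
  have hM2 : (M : ℝ) < (T : ℝ) / (4 - c) := Nat.lt_ceil.1 (by omega)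
  have hM3 : (4 - c) * M < T := by
    rw [lt_div_iff₀ h4] at hM2
    linarith
  obtain ⟨C0, H⟩ := H T M 1 m hT hM3
  refine ⟨C0 + 64, fun η hη => ?_⟩
  have htend : Tendsto (fun x : ℕ => 128 * x) atTop atTop := tendsto_id.const_mul_atTop' (by norm_num)
  filter_upwards [htend.eventually (H (min η 1) (by positivity)), eventually_ge_atTop 1] with x hN hx v hv
  have hx1 : (1 : ℤ) ≤ x := by exact_mod_cast hx
  have hxr : (1 : ℝ) ≤ x := by exact_mod_cast hx
  obtain ⟨S, E, hS, hE1, hE2, hE3, hcnt⟩ := hN (fun _ => 1) v (fun _ => one_ne_zero) (fun _ => by simp)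
    (fun i => by
      have := hv i
      push_cast
      linarith) (fun i y h1 h2 => by
      have h3 : |((v i : ℤ) : ℝ)| ≤ x := by exact_mod_cast hv i
      have h4 := (abs_le.1 h3).1
      push_cast at h1 ⊢
      linarith)
  refine ⟨S, ?_, fun i => (E i).image (fun e : ℕ => v i + e), ?_, ?_, ?_⟩
  · have h5 : (T : ℝ) / (4 - c) ≤ S.card := (Nat.le_ceil _).trans (by exact_mod_cast hM1 ▸ hS)
    rw [div_le_iff₀ h4] at h5
    linarith
  · intro i hi
    refine ⟨?_, ?_⟩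
    · rw [card_image_of_injective _ (fun e e' h => by simpa using h)]
      exact hE2 i hi
    · intro a ha
      obtain ⟨e, he, rfl⟩ := mem_image.1 ha
      have h5 := hE1 i e he
      rw [add_sub_cancel_left, abs_of_nonneg (Nat.cast_nonneg _)]
      exact_mod_cast h5.trans (Nat.le_add_right _ _)
  · intro i hi j hj hij
    rw [Finset.disjoint_left]
    intro a ha hb
    obtain ⟨e, he, rfl⟩ := mem_image.1 ha
    obtain ⟨e', he', h⟩ := mem_image.1 hb
    exact hE3 i j hij e he e' he' (by rw [one_mul, one_mul]; exact h)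
  · have h5 : (x : ℝ) ^ (1 - η) ≤ ((128 * x : ℕ) : ℝ) ^ (1 - min η 1) := by
      have e1 : (x : ℝ) ^ (1 - η) ≤ (x : ℝ) ^ (1 - min η 1) :=
        Real.rpow_le_rpow_of_exponent_le hxr (by linarith [min_le_left η 1])
      refine e1.trans (Real.rpow_le_rpow (by linarith) ?_ (by linarith [min_le_right η 1]))
      push_cast
      linarith
    refine h5.trans (hcnt.trans ?_)
    rw [Nat.cast_le, ← Set.ncard_coe_finset]
    apply Set.ncard_le_ncard _ (fin_set _ _)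
    intro n hn
    rw [mem_coe, mem_filter] at hn
    obtain ⟨h1, h2, h3, h4⟩ := hn
    refine ⟨?_, ?_⟩
    · push_cast at h3
      have h6 : (n : ℝ) ≤ ((64 * x : ℕ) : ℝ) := by push_cast; linarith
      have h7 : n ≤ 64 * x := by exact_mod_cast h6
      have h8 : 64 * x ≤ (C0 + 64) * x := Nat.mul_le_mul_right _ (by omega)
      omega
    · intro i hi a ha
      obtain ⟨e, he, rfl⟩ := mem_image.1 ha
      have := h4 i hi e he
      rwa [one_mul] at this

/-- For every finite set `V` of indices the families which are good carry a fixed proportion above one quarter of every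
weight. -/
theorem carries (H : UniM) : ∃ p : ℝ, 1 / 4 < p ∧ ∀ (V : Type) [Fintype V] [DecidableEq V] (m : ℕ), ∃ C : ℕ,
    ∀ η : ℝ, 0 < η → ∀ᶠ x : ℕ in atTop, ∀ v : V → ℤ, (∀ t, |v t| ≤ x) →
      Carries p (fun S => GoodOn C m η x S v) := by
  classical
  obtain ⟨c, hc, hc1, H⟩ := star H
  have h4 : (0 : ℝ) < 4 - c := by linarith
  have h42 : (0 : ℝ) < 4 - c / 2 := by linarith
  refine ⟨1 / (4 - c / 2), ?_, ?_⟩
  · apply one_div_lt_one_div_of_lt h42
    linarith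
  intro V _ _ m
  set T := Fintype.card V with hT
  set R : ℕ := ⌈8 * (T : ℝ) / c⌉₊ + T + 1 with hR
  have hRT : T < R := by omega
  have hR0 : (0 : ℝ) < R := by exact_mod_cast (by omega : 0 < R)
  have hRc : (T : ℝ) * (4 - c / 2) ≤ R * (c / 2) := by
    have h1 : 8 * (T : ℝ) / c ≤ R := (Nat.le_ceil _).trans (by exact_mod_cast (by omega : ⌈8 * (T : ℝ) / c⌉₊ ≤ R))
    rw [div_le_iff₀ hc] at h1
    have h2 : (0 : ℝ) ≤ T := Nat.cast_nonneg _
    nlinarith
  choose! Cf hCf using fun (T' : ℕ) (h : 1 ≤ T') => H T' m h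
  set C := ∑ T' ∈ Icc 1 R, Cf T' + 1 with hC
  refine ⟨C, fun η hη => ?_⟩
  have hall : ∀ᶠ x : ℕ in atTop, ∀ T' ∈ Icc 1 R, ∀ v : Fin T' → ℤ, (∀ i, |v i| ≤ x) →
      ∃ S : Finset (Fin T'), (T' : ℝ) ≤ (4 - c) * S.card ∧ GoodOn (Cf T') m η x S v := by
    rw [eventually_all_finset]
    intro T' hT'
    exact hCf T' (mem_Icc.1 hT').1 η hη
  filter_upwards [hall, eventually_ge_atTop 1] with x hx hx1 v hv
  refine ⟨fun S S' hS h => h.mono le_rfl hS, fun w hw => ?_⟩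
  have hxr : (1 : ℝ) ≤ x := by exact_mod_cast hx1
  rcases (sum_nonneg fun t _ => hw t : 0 ≤ ∑ t, w t).eq_or_lt with hW | hW
  · refine ⟨∅, ⟨fun _ => ∅, by simp, by simp, ?_⟩, ?_⟩
    · have e1 : (x : ℝ) ^ (1 - η) ≤ x := by
        conv_rhs => rw [← Real.rpow_one (x : ℝ)]
        exact Real.rpow_le_rpow_of_exponent_le hxr (by linarith)
      refine e1.trans ?_
      rw [Nat.cast_le]
      have h0 : x ≤ C * x := Nat.le_mul_of_pos_left _ (by omega)
      have h1 : {n : ℕ | n ≤ C * x ∧ ∀ t ∈ (∅ : Finset V), ∀ a ∈ (∅ : Finset ℤ), ((n : ℤ) + a).toNat.Prime} =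
          ((Finset.range (C * x + 1) : Finset ℕ) : Set ℕ) := by
        ext n
        simp
      rw [h1, Set.ncard_coe_finset, card_range]
      omega
    · rw [← hW]
      simp
  set W := ∑ t, w t with hWdef
  set k : V → ℕ := fun t => ⌊(R : ℝ) * w t / W⌋₊ with hk
  have hk1 : ∀ t, (k t : ℝ) ≤ R * w t / W := fun t => Nat.floor_le (by have := hw t; positivity)
  have hk2 : ∀ t, (R : ℝ) * w t / W - 1 ≤ k t := fun t => by linarith [Nat.lt_floor_add_one ((R : ℝ) * w t / W)]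
  have hsum : ∑ t, (R : ℝ) * w t / W = R := by
    rw [← sum_div, ← mul_sum, ← hWdef]
    field_simp
  set T' := ∑ t, k t with hT'
  have hT'1 : (T' : ℝ) ≤ R := by
    rw [hT', Nat.cast_sum]
    exact (sum_le_sum fun t _ => hk1 t).trans hsum.le
  have hT'2 : (R : ℝ) - T ≤ T' := by
    rw [hT', Nat.cast_sum]
    refine le_trans (le_of_eq ?_) (sum_le_sum fun t _ => hk2 t)
    rw [sum_sub_distrib, hsum]
    simp [hT]
  have hT'3 : 1 ≤ T' := by
    have : (T : ℝ) + 1 ≤ R := by exact_mod_cast hRT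
    have : (1 : ℝ) ≤ T' := by linarith
    exact_mod_cast this
  have hT'4 : T' ∈ Icc 1 R := mem_Icc.2 ⟨hT'3, by exact_mod_cast hT'1⟩
  let e : ((t : V) × Fin (k t)) ≃ Fin T' := Fintype.equivFinOfCardEq (by simp [hT'])
  obtain ⟨S', hS'1, A', hA1, hA2, hA3⟩ := hx T' hT'4 (fun j => v (e.symm j).1) (fun j => hv _)
  set pos : Fin T' → V := fun j => (e.symm j).1 with hpos
  have hfib : ∀ t : V, (S'.filter (fun j => pos j = t)).card ≤ k t := by
    intro t
    have h1 : (S'.filter (fun j => pos j = t)).card ≤ (range (k t)).card := by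
      apply card_le_card_of_injOn (fun j => ((e.symm j).2 : ℕ))
      · intro j hj
        have h2 := (mem_filter.1 (mem_coe.1 hj)).2
        rw [mem_coe, mem_range, ← h2]
        exact (e.symm j).2.2
      · intro j hj j' hj' h
        have h2 := (mem_filter.1 (mem_coe.1 hj)).2
        have h3 := (mem_filter.1 (mem_coe.1 hj')).2
        apply e.symm.injective
        apply Sigma.ext (h2.trans h3.symm)
        simp only at h
        rw [hpos] at h2 h3
        simp only at h2 h3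
        generalize e.symm j = y at *
        generalize e.symm j' = y' at *
        obtain ⟨a, b⟩ := y
        obtain ⟨a', b'⟩ := y'
        simp only at h2 h3 h
        subst h2
        subst h3
        exact heq_of_eq (Fin.ext h)
    rwa [card_range] at h1
  set S : Finset V := S'.image pos with hS
  have hex : ∀ t : V, ∃ j : Option (Fin T'), t ∈ S → ∃ j', j = some j' ∧ j' ∈ S' ∧ pos j' = t := by
    intro t
    by_cases ht : t ∈ S
    · obtain ⟨j, hj, hjt⟩ := mem_image.1 ht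
      exact ⟨some j, fun _ => ⟨j, rfl, hj, hjt⟩⟩
    · exact ⟨none, fun h => absurd h ht⟩
  choose J hJ using hex
  refine ⟨S, ⟨fun t => (J t).elim ∅ A', ?_, ?_, ?_⟩, ?_⟩
  · intro t ht
    obtain ⟨j, hj, hjS, hjt⟩ := hJ t ht
    beta_reduce
    rw [hj]
    refine ⟨(hA1 j hjS).1, fun a ha => ?_⟩
    have h1 := (hA1 j hjS).2 a ha
    beta_reduce at h1
    rw [hpos] at hjt
    simp only at hjt
    rw [hjt] at h1
    refine h1.trans ?_
    have h2 : Cf T' ≤ C := by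
      have := single_le_sum (f := Cf) (fun _ _ => Nat.zero_le _) hT'4
      omega
    exact_mod_cast h2
  · intro t ht t' ht' hne
    obtain ⟨j, hj, hjS, hjt⟩ := hJ t ht
    obtain ⟨j', hj', hjS', hjt'⟩ := hJ t' ht'
    beta_reduce
    rw [hj, hj']
    apply hA2 j hjS j' hjS'
    rintro rfl
    exact hne (hjt.symm.trans hjt')
  · refine hA3.trans ?_
    rw [Nat.cast_le]
    apply Set.ncard_le_ncard _ (fin_set _ _)
    intro n hn
    have h2 : Cf T' ≤ C := by
      have := single_le_sum (f := Cf) (fun _ _ => Nat.zero_le _) hT'4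
      omega
    have h3 : Cf T' * x ≤ C * x := Nat.mul_le_mul_right _ h2
    refine ⟨hn.1.trans h3, fun t ht a ha => ?_⟩
    obtain ⟨j, hj, hjS, hjt⟩ := hJ t ht
    beta_reduce at ha
    rw [hj] at ha
    exact hn.2 j hjS a ha
  · have h1 : (S'.card : ℝ) ≤ ∑ t ∈ S, (k t : ℝ) := by
      rw [← Nat.cast_sum, Nat.cast_le]
      rw [card_eq_sum_card_image pos S', ← hS]
      exact sum_le_sum fun t _ => hfib t
    have h2 : ∑ t ∈ S, (k t : ℝ) ≤ R / W * ∑ t ∈ S, w t := by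
      rw [mul_sum]
      refine sum_le_sum fun t _ => (hk1 t).trans (le_of_eq ?_)
      ring
    have h3 : (R : ℝ) - T ≤ (4 - c) * (R / W * ∑ t ∈ S, w t) :=
      (hT'2.trans hS'1).trans (mul_le_mul_of_nonneg_left (h1.trans h2) h4.le)
    rw [one_div_mul_eq_div, div_le_iff₀ h42]
    have h5 : (R : ℝ) / W * ∑ t ∈ S, w t = R * (∑ t ∈ S, w t) / W := by ring
    rw [h5, ← mul_div_assoc, le_div_iff₀ hW] at h3
    have h6 : (R : ℝ) * (4 - c) ≤ (R - T) * (4 - c / 2) := by nlinarith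
    have h7 : (R : ℝ) * (4 - c) * W ≤ (4 - c) * (R * ∑ t ∈ S, w t) * (4 - c / 2) := by
      calc (R : ℝ) * (4 - c) * W ≤ (R - T) * (4 - c / 2) * W := mul_le_mul_of_nonneg_right h6 hW.le
        _ = (R - T) * W * (4 - c / 2) := by ring
        _ ≤ _ := mul_le_mul_of_nonneg_right h3 h42.le
    have h8 : (R : ℝ) * (4 - c) * W ≤ R * (4 - c) * ((∑ t ∈ S, w t) * (4 - c / 2)) := by
      calc _ ≤ _ := h7
        _ = _ := by ring
    exact le_of_mul_le_mul_left h8 (by positivity)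

end Pool.Agent.Q118.HL
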