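import Mathlib
import Pool.Agent.Q118.HL.Near

/-! Every array of integers: the proportion of its subarrays which are good. -/

set_option autoImplicit false

namespace Pool.Agent.Q118.HL

open Finset Filter

theorem pt_inj {d r L : ℕ} (f : Fin d → Fin r → Fin L) (hf : ∀ j, Function.Injective (f j)) :
    Function.Injective (pt f) := by
  intro i i' h
  funext j
  exact hf j (congrFun h j)

open Classical in
theorem main0 {p : ℝ} (hp : 1 / 4 < p) (H : ∀ (V : Type) [Fintype V] [DecidableEq V] (m : ℕ), ∃ C : ℕ,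
    ∀ η : ℝ, 0 < η → ∀ᶠ x : ℕ in atTop, ∀ v : V → ℤ, (∀ t, |v t| ≤ x) →
      Carries p (fun S => GoodOn C m η x S v)) {δ : ℝ} (hδ0 : 0 < δ) (hδ : δ < p)
    (d r : ℕ) (F : Finset (Fin d → Fin r)) (hF : 2 ≤ F.card) (hS : Sid F) (m : ℕ) :
    ∃ C : ℕ, ∀ η : ℝ, 0 < η → ∀ᶠ x : ℕ in atTop,
      ∀ K : ℕ, 1 ≤ K → ∀ u : (Fin d → Fin K) → ℤ, (∀ ω, |u ω| ≤ x) →
        δ ^ (F.card - 1) * ((K : ℝ) ^ r) ^ d ≤ (((univ : Finset (Fin d → Fin r → Fin K)).filter
          (fun g => GoodOn C m η x F (fun i => u (pt g i)))).card : ℝ) := by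
  have hp0 : 0 < p := by linarith
  set n := F.card - 1 with hn
  have hgap : δ ^ n < p ^ n := pow_lt_pow_left₀ hδ hδ0.le (by omega)
  set gap := p ^ n - δ ^ n with hgapd
  have hgap0 : 0 < gap := by linarith
  obtain ⟨L, hL⟩ := exists_nat_gt ((d * (r * r) : ℝ) / gap)
  have hLpos : (0 : ℝ) < L := lt_of_le_of_lt (by positivity) hL
  have hL1 : 1 ≤ L := by exact_mod_cast hLpos
  have hL2 : (d * (r * r) : ℝ) / L ≤ gap := by
    rw [div_lt_iff₀ hgap0] at hL
    rw [div_le_iff₀ hLpos]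
    linarith
  obtain ⟨C, H⟩ := H (Fin d → Fin L) m
  refine ⟨C, fun η hη => ?_⟩
  filter_upwards [H η hη] with x hx K hK u hu
  have h1 := prop2 hL1 hK p hp0 F (card_pos.1 (by omega)) hS (fun g => GoodOn C m η x F (fun i => u (pt g i)))
    (fun φ => ⟨fun S => GoodOn C m η x S (fun ω => u (fun j => φ j (ω j))), hx _ (fun ω => hu _), ?_⟩)
  · refine le_trans (mul_le_mul_of_nonneg_right ?_ (by positivity)) h1
    rw [← hn]
    linarith
  · intro f hf hP
    obtain ⟨A, hA1, hA2, hA3⟩ := hP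
    refine ⟨fun i => A (pt f i), fun i hi => hA1 (pt f i) (mem_image_of_mem _ hi),
      fun i hi i' hi' hne => hA2 _ (mem_image_of_mem _ hi) _ (mem_image_of_mem _ hi') (fun h => hne (pt_inj f hf h)), ?_⟩
    refine hA3.trans ?_
    rw [Nat.cast_le]
    apply Set.ncard_le_ncard _ (fin_set _ _)
    intro k hk
    exact ⟨hk.1, fun i hi => hk.2 _ (mem_image_of_mem _ hi)⟩

open Classical in
theorem main1 {p : ℝ} (hp : 1 / 4 < p) (H : ∀ (V : Type) [Fintype V] [DecidableEq V] (m : ℕ), ∃ C : ℕ,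
    ∀ η : ℝ, 0 < η → ∀ᶠ x : ℕ in atTop, ∀ v : V → ℤ, (∀ t, |v t| ≤ x) →
      Carries p (fun S => GoodOn C m η x S v)) {δ : ℝ} (hδ0 : 0 < δ) (hδ : δ < p)
    (d r : ℕ) (F : Finset (Fin d → Fin r)) (hF : 2 ≤ F.card) (hS : Sid F) (m : ℕ) :
    ∃ C : ℕ, ∀ η : ℝ, 0 < η → ∀ᶠ x : ℕ in atTop, ∀ (K : ℕ) (u : (Fin d → Fin K) → ℤ), (∀ ω, |u ω| ≤ x) →
      δ ^ (F.card - 1) * ((K : ℝ) ^ r) ^ d ≤ (((univ : Finset (Fin d → Fin r → Fin K)).filter
        (fun g => GoodOn C m η x F (fun i => u (pt g i)))).card : ℝ) := by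
  obtain ⟨C, H⟩ := main0 hp H hδ0 hδ d r F hF hS m
  refine ⟨C, fun η hη => ?_⟩
  filter_upwards [H η hη] with x hx K u hu
  rcases Nat.eq_zero_or_pos K with rfl | hK
  · have hd : d ≠ 0 := by
      rintro rfl
      have := card_le_univ F
      simp at this
      omega
    have hr : r ≠ 0 := by
      rintro rfl
      have := card_le_univ F
      have h1 : Fintype.card (Fin d → Fin 0) = 0 ^ d := by simp
      rw [h1, zero_pow hd] at this
      omega
    rw [Nat.cast_zero, zero_pow hr, zero_pow hd, mul_zero]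
    exact Nat.cast_nonneg _
  · exact hx K hK u hu

theorem card_emb (K r : ℕ) (I : Finset (Fin K)) (hI : I.card = r) (s : Finset (Fin r → Fin K))
    (hs : ∀ h ∈ s, Function.Injective h ∧ ∀ i, h i ∈ I) : s.card ≤ r.factorial := by
  classical
  have h1 : s ⊆ (univ : Finset (Fin r ↪ I)).image (fun e i => (e i : Fin K)) := by
    intro h hh
    obtain ⟨h2, h3⟩ := hs h hh
    exact mem_image.2 ⟨⟨fun i => ⟨h i, h3 i⟩, fun a b hab => h2 (Subtype.ext_iff.1 hab)⟩, mem_univ _, rfl⟩
  have h2 : Fintype.card (Fin r ↪ I) = r.factorial := by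
    rw [Fintype.card_embedding_eq, Fintype.card_coe, hI, Fintype.card_fin, Nat.descFactorial_self]
  rw [← h2]
  exact (card_le_card h1).trans (card_image_le.trans (le_of_eq card_univ))

open Classical in
theorem main2 {p : ℝ} (hp : 1 / 4 < p) (H : ∀ (V : Type) [Fintype V] [DecidableEq V] (m : ℕ), ∃ C : ℕ,
    ∀ η : ℝ, 0 < η → ∀ᶠ x : ℕ in atTop, ∀ v : V → ℤ, (∀ t, |v t| ≤ x) →
      Carries p (fun S => GoodOn C m η x S v)) {δ : ℝ} (hδ0 : 0 < δ) (hδ : δ < p)
    (d r : ℕ) (h2 : 2 ≤ r ^ d) (m : ℕ) :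
    ∃ C : ℕ, ∀ η : ℝ, 0 < η → ∀ᶠ x : ℕ in atTop, ∀ K : ℕ, C ≤ K → ∀ u : (Fin d → Fin K) → ℤ, (∀ ω, |u ω| ≤ x) →
      δ ^ (r ^ d - 1) * (K.choose r : ℝ) ^ d ≤ (((univ : Finset (Fin d → Finset (Fin K))).filter
        (fun I => (∀ j, (I j).card = r) ∧ GoodOn C m η x (Fintype.piFinset I) u)).card : ℝ) := by
  have hcF : (univ : Finset (Fin d → Fin r)).card = r ^ d := by simp
  have hd : d ≠ 0 := by
    rintro rfl
    rw [pow_zero] at h2
    omega
  have hr : r ≠ 0 := by
    rintro rfl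
    rw [zero_pow hd] at h2
    omega
  have : NeZero r := ⟨hr⟩
  obtain ⟨C0, H⟩ := main0 hp H (δ := (δ + p) / 2) (by linarith) (by linarith) d r univ (by rw [hcF]; exact h2)
    (sid_univ d r) m
  rw [hcF] at H
  have hρ : δ ^ (r ^ d - 1) < ((δ + p) / 2) ^ (r ^ d - 1) := pow_lt_pow_left₀ (by linarith) hδ0.le (by omega)
  set ρ := ((δ + p) / 2) ^ (r ^ d - 1)
  set gap := ρ - δ ^ (r ^ d - 1) with hgap
  have hgap0 : 0 < gap := by linarith
  obtain ⟨K0, hK0⟩ := exists_nat_gt ((d * (r * r) : ℝ) / gap)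
  refine ⟨C0 + K0, fun η hη => ?_⟩
  filter_upwards [H η hη] with x hx K hK u hu
  have hK0pos : (0 : ℝ) < K0 := lt_of_le_of_lt (by positivity) hK0
  have hKK : (K0 : ℝ) ≤ K := by exact_mod_cast (by omega : K0 ≤ K)
  have hKpos : (0 : ℝ) < K := by linarith
  have hK1 : 1 ≤ K := by exact_mod_cast hKpos
  have h3 := hx K hK1 u hu
  set G := (univ : Finset (Fin d → Fin r → Fin K)).filter
    (fun g => (∀ j, Function.Injective (g j)) ∧ GoodOn C0 m η x univ (fun i => u (pt g i))) with hG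
  -- the injective good selections
  have h4 : δ ^ (r ^ d - 1) * ((K : ℝ) ^ r) ^ d ≤ G.card := by
    have e2 := noninj d r K
    have e3 : ((univ : Finset (Fin d → Fin r → Fin K)).filter
        (fun g => GoodOn C0 m η x univ (fun i => u (pt g i)))).card ≤ G.card +
        ((univ : Finset (Fin d → Fin r → Fin K)).filter (fun f => ¬ ∀ j, Function.Injective (f j))).card := by
      rw [← card_union_of_disjoint]
      · apply card_le_card
        intro f hf
        rw [mem_union]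
        by_cases hi : ∀ j, Function.Injective (f j)
        · exact Or.inl (mem_filter.2 ⟨mem_univ _, hi, (mem_filter.1 hf).2⟩)
        · exact Or.inr (mem_filter.2 ⟨mem_univ _, hi⟩)
      · rw [Finset.disjoint_left]
        intro f hf hf'
        exact (mem_filter.1 hf').2 (mem_filter.1 hf).2.1
    have e4 : (((univ : Finset (Fin d → Fin r → Fin K)).filter (fun f => ¬ ∀ j, Function.Injective (f j))).card : ℝ) ≤
        (d * (r * r) : ℝ) / K * ((K : ℝ) ^ r) ^ d := by
      rw [div_mul_eq_mul_div, le_div_iff₀ hKpos]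
      exact_mod_cast e2
    have e5 : (((univ : Finset (Fin d → Fin r → Fin K)).filter
        (fun g => GoodOn C0 m η x univ (fun i => u (pt g i)))).card : ℝ) ≤ (G.card : ℝ) +
        (((univ : Finset (Fin d → Fin r → Fin K)).filter (fun f => ¬ ∀ j, Function.Injective (f j))).card : ℝ) := by
      exact_mod_cast e3
    have e6 : (d * (r * r) : ℝ) / K ≤ gap := by
      rw [div_lt_iff₀ hgap0] at hK0
      rw [div_le_iff₀ hKpos]
      nlinarith
    have e7 : (d * (r * r) : ℝ) / K * ((K : ℝ) ^ r) ^ d ≤ gap * ((K : ℝ) ^ r) ^ d :=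
      mul_le_mul_of_nonneg_right e6 (by positivity)
    have e8 : gap * ((K : ℝ) ^ r) ^ d = ρ * ((K : ℝ) ^ r) ^ d - δ ^ (r ^ d - 1) * ((K : ℝ) ^ r) ^ d := by
      rw [hgap]
      ring
    linarith
  -- passing to the sets
  set f : (Fin d → Fin r → Fin K) → (Fin d → Finset (Fin K)) := fun g j => univ.image (g j) with hf
  set Z := (univ : Finset (Fin d → Finset (Fin K))).filter
    (fun I => (∀ j, (I j).card = r) ∧ GoodOn (C0 + K0) m η x (Fintype.piFinset I) u) with hZ
  have h5 : G.card ≤ r.factorial ^ d * (G.image f).card := by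
    apply card_le_mul_card_image
    intro I hI
    obtain ⟨g0, hg0, rfl⟩ := mem_image.1 hI
    have hI1 : ∀ j, (f g0 j).card = r := by
      intro j
      rw [hf]
      simp only
      rw [card_image_of_injective _ ((mem_filter.1 hg0).2.1 j), card_univ, Fintype.card_fin]
    have h6 : G.filter (fun g => f g = f g0) ⊆ Fintype.piFinset (fun j =>
        (univ : Finset (Fin r → Fin K)).filter (fun h => Function.Injective h ∧ ∀ i, h i ∈ f g0 j)) := by
      intro g hg
      rw [mem_filter] at hg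
      rw [Fintype.mem_piFinset]
      intro j
      refine mem_filter.2 ⟨mem_univ _, (mem_filter.1 hg.1).2.1 j, fun i => ?_⟩
      rw [← hg.2]
      exact mem_image_of_mem _ (mem_univ _)
    refine (card_le_card h6).trans ?_
    rw [Fintype.card_piFinset]
    refine (prod_le_pow_card _ _ r.factorial fun j _ => ?_).trans (by rw [card_univ, Fintype.card_fin])
    exact card_emb K r (f g0 j) (hI1 j) _ (fun h hh => (mem_filter.1 hh).2)
  have h6 : G.image f ⊆ Z := by
    intro I hI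
    obtain ⟨g, hg, rfl⟩ := mem_image.1 hI
    obtain ⟨hinj, A, hA1, hA2, hA3⟩ := (mem_filter.1 hg).2
    refine mem_filter.2 ⟨mem_univ _, fun j => ?_, ?_⟩
    · rw [hf]
      simp only
      rw [card_image_of_injective _ (hinj j), card_univ, Fintype.card_fin]
    have hinv : ∀ ω ∈ Fintype.piFinset (f g), pt g (fun j => Function.invFun (g j) (ω j)) = ω := by
      intro ω hω
      rw [Fintype.mem_piFinset] at hω
      funext j
      obtain ⟨i, _, hi⟩ := mem_image.1 (hω j)
      exact Function.invFun_eq ⟨i, hi⟩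
    refine ⟨fun ω => A (fun j => Function.invFun (g j) (ω j)), fun ω hω => ?_, fun ω hω ω' hω' hne => ?_, ?_⟩
    · have h7 := hA1 (fun j => Function.invFun (g j) (ω j)) (mem_univ _)
      beta_reduce at h7
      rw [hinv ω hω] at h7
      refine ⟨h7.1, fun a ha => (h7.2 a ha).trans ?_⟩
      push_cast
      have : (0 : ℤ) ≤ K0 := Nat.cast_nonneg _
      linarith
    · apply hA2 _ (mem_univ _) _ (mem_univ _)
      intro h
      apply hne
      rw [← hinv ω hω, ← hinv ω' hω', h]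
    · refine hA3.trans ?_
      rw [Nat.cast_le]
      apply Set.ncard_le_ncard _ (fin_set _ _)
      intro k hk
      exact ⟨hk.1.trans (Nat.mul_le_mul_right _ (Nat.le_add_right _ _)), fun ω _ => hk.2 _ (mem_univ _)⟩
  have h7 : G.card ≤ r.factorial ^ d * Z.card := h5.trans (Nat.mul_le_mul_left _ (card_le_card h6))
  have h8 : (r.factorial : ℝ) * K.choose r ≤ (K : ℝ) ^ r := by
    have := Nat.descFactorial_le_pow K r
    rw [Nat.descFactorial_eq_factorial_mul_choose] at this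
    exact_mod_cast this
  have h9 : ((r.factorial : ℝ) * K.choose r) ^ d ≤ ((K : ℝ) ^ r) ^ d := pow_le_pow_left₀ (by positivity) h8 d
  have h10 : (r.factorial : ℝ) ^ d * (δ ^ (r ^ d - 1) * (K.choose r : ℝ) ^ d) ≤
      (r.factorial : ℝ) ^ d * (Z.card : ℝ) := by
    calc _ = δ ^ (r ^ d - 1) * ((r.factorial : ℝ) * K.choose r) ^ d := by rw [mul_pow]; ring
      _ ≤ δ ^ (r ^ d - 1) * ((K : ℝ) ^ r) ^ d := mul_le_mul_of_nonneg_left h9 (by positivity)
      _ ≤ G.card := h4
      _ ≤ _ := by exact_mod_cast h7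
  exact le_of_mul_le_mul_left h10 (by positivity)

end Pool.Agent.Q118.HL
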