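import Mathlib
import Pool.Agent.Q118.HL.Main
import Pool.Agent.TH899.UG.UniM

/-! The uniform coloured Maynard-Tao theorem of the starting files in the form used here. -/

set_option autoImplicit false

namespace Pool.Agent.Q118.HL

open Finset Filter

theorem uniMHolds : UniM := Pool.Agent.TH899.UG.Uni.uniM

/-- For every finite set `V` of indices the families which are good carry a fixed proportion above one quarter of every
weight. -/
theorem carries_all : ∃ p : ℝ, 1 / 4 < p ∧ ∀ (V : Type) [Fintype V] [DecidableEq V] (m : ℕ), ∃ C : ℕ,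
    ∀ η : ℝ, 0 < η → ∀ᶠ x : ℕ in atTop, ∀ v : V → ℤ, (∀ t, |v t| ≤ x) →
      Carries p (fun S => GoodOn C m η x S v) := carries uniMHolds

end Pool.Agent.Q118.HL
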