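import Mathlib
import Pool.Agent.Q118.HL.Near

/-! Partitions into good classes and good random subfamilies. -/

set_option autoImplicit false

namespace Pool.Agent.Q118.HL

open Finset Filter

theorem cover {V : Type} [Fintype V] [DecidableEq V] {p : ℝ} (hp1 : p ≤ 1) (P : Finset V → Prop)
    (hP : Carries p P) : ∀ (k : ℕ) (R : Finset V), (1 - p) ^ k * R.card < 1 →
      ∃ Q : Fin k → Finset V, (∀ j, P (Q j)) ∧ ∀ t ∈ R, ∃ j, t ∈ Q j := by
  intro k
  induction k with
  | zero =>
    intro R hR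
    have h0 : R = ∅ := by
      rw [pow_zero, one_mul] at hR
      have : R.card < 1 := by exact_mod_cast hR
      exact card_eq_zero.1 (by omega)
    exact ⟨fun j => j.elim0, fun j => j.elim0, fun t ht => by rw [h0] at ht; exact absurd ht (notMem_empty t)⟩
  | succ k ih =>
    intro R hR
    obtain ⟨S, hS, hw⟩ := hP.2 (fun t => if t ∈ R then 1 else 0) (fun t => by split_ifs <;> norm_num)
    have e1 : ∑ t, (if t ∈ R then (1 : ℝ) else 0) = R.card := by simp
    have e2 : ∑ t ∈ S, (if t ∈ R then (1 : ℝ) else 0) = (S ∩ R).card := by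
      rw [← sum_filter, sum_const, nsmul_eq_mul, mul_one, filter_mem_eq_inter]
    rw [e1, e2] at hw
    have e3 : ((R \ S).card : ℝ) = R.card - (S ∩ R).card := by
      have := card_sdiff_add_card_inter R S
      rw [inter_comm] at this
      have h4 : ((R \ S).card : ℝ) + (S ∩ R).card = R.card := by exact_mod_cast this
      linarith
    have e4 : (1 - p) ^ k * ((R \ S).card : ℝ) < 1 := by
      refine lt_of_le_of_lt ?_ hR
      rw [e3, pow_succ, mul_assoc]
      apply mul_le_mul_of_nonneg_left _ (pow_nonneg (by linarith) k)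
      linarith
    obtain ⟨Q, hQ1, hQ2⟩ := ih (R \ S) e4
    refine ⟨Fin.cons S Q, fun j => ?_, fun t ht => ?_⟩
    · refine Fin.cases ?_ (fun j => ?_) j
      · exact hS
      · exact hQ1 j
    · by_cases hts : t ∈ S
      · exact ⟨0, hts⟩
      · obtain ⟨j, hj⟩ := hQ2 t (mem_sdiff.2 ⟨ht, hts⟩)
        exact ⟨j.succ, hj⟩

/-- colourings with `k` good classes -/
theorem colouring {V : Type} [Fintype V] [DecidableEq V] {p : ℝ} (hp1 : p ≤ 1) (P : Finset V → Prop)
    (hP : Carries p P) (k : ℕ) (hk : (1 - p) ^ k * Fintype.card V < 1) :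
    ∃ c : V → Fin k, ∀ j : Fin k, P (univ.filter (fun t => c t = j)) := by
  classical
  obtain ⟨Q, hQ1, hQ2⟩ := cover hp1 P hP k univ (by rw [card_univ]; exact hk)
  choose c hc using fun t => hQ2 t (mem_univ t)
  refine ⟨c, fun j => ?_⟩
  apply hP.1 (Q j) _ _ (hQ1 j)
  intro t ht
  have h1 := (mem_filter.1 ht).2
  rw [← h1]
  exact hc t

/-- the proportion is at most one -/
theorem Carries.le_one {V : Type} [Fintype V] [Nonempty V] {p : ℝ} {P : Finset V → Prop}
    (hP : Carries p P) : p ≤ 1 := by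
  classical
  obtain ⟨S, hS, hw⟩ := hP.2 (fun _ => 1) (fun _ => zero_le_one)
  have h1 : ∑ t ∈ S, (1 : ℝ) ≤ ∑ _t : V, (1 : ℝ) := sum_le_sum_of_subset_of_nonneg (subset_univ _) (fun _ _ _ => zero_le_one)
  have h2 : (0 : ℝ) < ∑ _t : V, (1 : ℝ) := by
    simp only [sum_const, card_univ, nsmul_eq_mul, mul_one]
    exact_mod_cast Fintype.card_pos
  by_contra hcon
  push Not at hcon
  nlinarith

end Pool.Agent.Q118.HL
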